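import Pool.Agent.Q82.SF.Poly

/-!
# The Frobenius cycle
-/

set_option autoImplicit false
set_option linter.unusedSectionVars false

open CategoryTheory AlgebraicGeometry Filter Polynomial

universe u v

namespace Pool.Agent.Q82.SF

open Pool.Agent.H914 Pool.Agent.H447 Pool.Agent.W534 Pool.Agent.Q82.OC VarClass Obj WeilCohomology

variable {k : Type u} [Field k] {𝒱 : VarClass k} {ops : CycleOps 𝒱}
  {W : WeilCohomology.{u, v} ops} {X : 𝒱.Obj} {D : X.Cycles} {p : ℕ} (Φ : FrobSystem W p)

/-- **Existence of the polynomial.** -/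
theorem exists_pointPoly {σ : W.K →+* ℂ} (hp : 1 < p) (hRH : RiemannHyp Φ σ X) :
    ∃ P, IsPointPoly Φ X P := by
  classical
  set F := frob Φ X 1 with hF
  set χ := F.charpoly with hχ
  set M := χ.natDegree with hM
  let a : Fin (M + 1) → ℕ → ℚ := fun j r => points Φ X (j + (r + 1))
  have hdep : ¬ LinearIndependent ℚ a := by
    intro hli
    have h1 := lin_ext (K := W.K) hli (c := fun j => χ.coeff j) (by
      intro r
      have e : ∑ i : Fin (M + 1), χ.coeff i * (a i r : W.K) =
          ∑ j ∈ Finset.range (M + 1), χ.coeff j * (points Φ X (j + (r + 1)) : W.K) :=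
        Fin.sum_univ_eq_sum_range (fun j => χ.coeff j * (points Φ X (j + (r + 1)) : W.K)) (M + 1)
      rw [e]
      have h2 : aeval F χ = 0 := LinearMap.aeval_self_charpoly F
      have h3 : LinearMap.trace W.K (W.H X) (par (W.isInternal X) * (aeval F χ * F ^ (r + 1))) = 0 := by
        rw [h2, zero_mul, mul_zero, map_zero]
      rw [aeval_eq_sum_range, Finset.sum_mul, Finset.mul_sum, map_sum] at h3
      rw [← h3]
      refine Finset.sum_congr rfl fun j _ => ?_
      rw [points_eq, smul_mul_assoc, mul_smul_comm, map_smul, smul_eq_mul, ← pow_add])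
    have h2 := congrFun h1 ⟨M, by omega⟩
    have h3 : χ.coeff M = 1 := (LinearMap.charpoly_monic F).coeff_natDegree
    change χ.coeff M = 0 at h2
    rw [h3] at h2
    exact one_ne_zero h2
  rw [Fintype.not_linearIndependent_iff] at hdep
  obtain ⟨c, hc, j₀, hj₀⟩ := hdep
  set Q : ℚ[X] := ∑ j : Fin (M + 1), Polynomial.monomial (j : ℕ) (c j) with hQ
  have hcoeff : ∀ j : Fin (M + 1), Q.coeff j = c j := by
    intro j
    rw [hQ, finsetSum_coeff, Finset.sum_eq_single j]
    · rw [coeff_monomial, if_pos rfl]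
    · intro i _ hi
      rw [coeff_monomial, if_neg (fun h => hi (Fin.ext h))]
    · intro h
      exact absurd (Finset.mem_univ j) h
  have hQ0 : Q ≠ 0 := by
    intro h
    apply hj₀
    rw [← hcoeff, h, coeff_zero]
  have hdeg : Q.natDegree ≤ M := by
    rw [hQ]
    apply natDegree_sum_le_of_forall_le
    intro j _
    exact (natDegree_monomial_le _).trans (by omega)
  have hrec : ∀ r, 1 ≤ r → ∑ j ∈ Finset.range (Q.natDegree + 1), Q.coeff j * points Φ X (j + r) = 0 := by
    intro r hr
    have h1 : ∑ j ∈ Finset.range (Q.natDegree + 1), Q.coeff j * points Φ X (j + r) =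
        ∑ j ∈ Finset.range (M + 1), Q.coeff j * points Φ X (j + r) := by
      apply Finset.sum_subset
      · intro j hj
        rw [Finset.mem_range] at hj ⊢
        omega
      · intro j _ hj
        rw [Finset.mem_range, not_lt] at hj
        rw [coeff_eq_zero_of_natDegree_lt (by omega), zero_mul]
    rw [h1, ← Fin.sum_univ_eq_sum_range (fun j => Q.coeff j * points Φ X (j + r)) (M + 1)]
    have h2 := congrFun hc (r - 1)
    rw [Finset.sum_apply, Pi.zero_apply] at h2
    rw [← h2]
    refine Finset.sum_congr rfl fun j _ => ?_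
    rw [Pi.smul_apply, smul_eq_mul, hcoeff]
    show _ = c j * points Φ X (j + (r - 1 + 1))
    rw [Nat.sub_add_cancel hr]
  have hnil := (recurrence_iff Φ hp hRH Q).1 hrec
  obtain ⟨y, n, hsq, hyQ, hQy⟩ := exists_squarefree_dvd_pow_of_ne_zero hQ0
  have hy0 : y ≠ 0 := fun h => hQ0 (by
    rw [h] at hyQ
    exact zero_dvd_iff.1 hyQ)
  refine ⟨y * C (y.leadingCoeff)⁻¹, monic_mul_leadingCoeff_inv hy0, ?_, ?_⟩
  · have hu : (y * C (y.leadingCoeff)⁻¹) * C y.leadingCoeff = y := by
      rw [mul_assoc, ← C_mul, inv_mul_cancel₀ (leadingCoeff_ne_zero.2 hy0), C_1, mul_one]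
    exact hsq.squarefree_of_dvd ⟨_, hu.symm⟩
  · apply (recurrence_iff Φ hp hRH _).2
    obtain ⟨q, hq⟩ := hQy
    obtain ⟨m, hm⟩ := hnil
    have h1 : IsNilpotent (aeval (frob Φ X 1) (y.map (algebraMap ℚ W.K))) := by
      refine ⟨n * m, ?_⟩
      have hc : Commute (aeval (frob Φ X 1) (Q.map (algebraMap ℚ W.K)))
          (aeval (frob Φ X 1) (q.map (algebraMap ℚ W.K))) :=
        (Commute.all (Q.map (algebraMap ℚ W.K)) (q.map (algebraMap ℚ W.K))).map
          (aeval (frob Φ X 1))
      have e : (aeval (frob Φ X 1) (y.map (algebraMap ℚ W.K))) ^ n =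
          aeval (frob Φ X 1) (Q.map (algebraMap ℚ W.K)) *
            aeval (frob Φ X 1) (q.map (algebraMap ℚ W.K)) := by
        rw [← map_pow, ← Polynomial.map_pow, hq, Polynomial.map_mul, map_mul]
      rw [pow_mul, e, hc.mul_pow, hm, zero_mul]
    have hc : Commute (aeval (frob Φ X 1) (y.map (algebraMap ℚ W.K)))
        (aeval (frob Φ X 1) ((C (y.leadingCoeff)⁻¹).map (algebraMap ℚ W.K))) :=
      (Commute.all (y.map (algebraMap ℚ W.K)) ((C (y.leadingCoeff)⁻¹).map (algebraMap ℚ W.K))).map
        (aeval (frob Φ X 1))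
    have e : aeval (frob Φ X 1) ((y * C (y.leadingCoeff)⁻¹).map (algebraMap ℚ W.K)) =
        aeval (frob Φ X 1) (y.map (algebraMap ℚ W.K)) *
          aeval (frob Φ X 1) ((C (y.leadingCoeff)⁻¹).map (algebraMap ℚ W.K)) := by
      rw [Polynomial.map_mul, map_mul]
    rw [e]
    exact hc.isNilpotent_mul_right h1

end Pool.Agent.Q82.SF
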