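import Pool.Agent.Q82.SF.Cyc

/-!
# The Frobenius cycle: numerical and homological equivalence
-/

set_option autoImplicit false
set_option linter.unusedSectionVars false

open CategoryTheory AlgebraicGeometry Filter Polynomial

universe u v

namespace Pool.Agent.Q82.SF

open Pool.Agent.H914 Pool.Agent.H447 Pool.Agent.W534 Pool.Agent.Q82.OC VarClass Obj WeilCohomology

section LA

variable {K : Type*} [Field K] [CharZero K] {V : Type*} [AddCommGroup V] [Module K V]
  [Module.Finite K V]

/-- A trace which vanishes after averaging. -/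
lemma trace_avg {u : (Module.End K V)ˣ} {s : ℕ} (hs : 0 < s) {N z g : Module.End K V}
    (hN : IsNilpotent N) (hNc : ∀ y, Commute (u : Module.End K V) y → Commute N y)
    (hgu : Commute (u : Module.End K V) g) (hgz : Commute g z)
    (hz : Commute ((u : Module.End K V) ^ s) z) :
    LinearMap.trace K V (g * (N * z)) = 0 := by
  let f : ℕ → Module.End K V := fun i => (u : Module.End K V) ^ i * z * ((u⁻¹ : (Module.End K V)ˣ) : Module.End K V) ^ i
  have hinv : ∀ i, ((u⁻¹ : (Module.End K V)ˣ) : Module.End K V) ^ i * (u : Module.End K V) ^ i = 1 := by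
    intro i
    rw [← Units.val_pow_eq_pow_val, ← Units.val_pow_eq_pow_val, ← Units.val_mul, inv_pow,
      inv_mul_cancel, Units.val_one]
  have hinv' : ∀ i, (u : Module.End K V) ^ i * ((u⁻¹ : (Module.End K V)ˣ) : Module.End K V) ^ i = 1 := by
    intro i
    rw [← Units.val_pow_eq_pow_val, ← Units.val_pow_eq_pow_val, ← Units.val_mul, inv_pow,
      mul_inv_cancel, Units.val_one]
  set z₁ := ∑ i ∈ Finset.range s, f i with hz₁
  have hf0 : f 0 = z := by simp [f]
  have hfs : f s = z := by
    show (u : Module.End K V) ^ s * z * _ = z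
    rw [hz.eq, mul_assoc, hinv', mul_one]
  have hstep : ∀ i, (u : Module.End K V) * f i = f (i + 1) * u := by
    intro i
    show (u : Module.End K V) * ((u : Module.End K V) ^ i * z * _) = _ * z * _ * _
    rw [pow_succ', pow_succ (((u⁻¹ : (Module.End K V)ˣ) : Module.End K V))]
    simp only [mul_assoc]
    rw [← Units.val_mul, inv_mul_cancel, Units.val_one, mul_one]
  have hcomm : Commute (u : Module.End K V) z₁ := by
    have h1 : (u : Module.End K V) * z₁ = (∑ i ∈ Finset.range s, f (i + 1)) * u := by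
      rw [hz₁, Finset.mul_sum, Finset.sum_mul]
      exact Finset.sum_congr rfl fun i _ => hstep i
    have h2 : ∑ i ∈ Finset.range s, f (i + 1) = z₁ := by
      have h3 := Finset.sum_range_succ' f s
      rw [Finset.sum_range_succ, hf0, hfs, add_left_inj] at h3
      exact h3.symm
    rw [h2] at h1
    exact h1
  have hgf : ∀ i, Commute g (f i) := by
    intro i
    have h1 : Commute ((u⁻¹ : (Module.End K V)ˣ) : Module.End K V) g :=
      (hgu.units_inv_left)
    exact ((hgu.pow_left i).symm.mul_right hgz).mul_right (h1.pow_left i).symm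
  have hNu : Commute N (u : Module.End K V) := hNc _ (Commute.refl _)
  have htr : ∀ i, LinearMap.trace K V (g * (N * f i)) = LinearMap.trace K V (g * (N * z)) := by
    intro i
    have h1 : g * (N * f i) = (u : Module.End K V) ^ i *
        (g * (N * z) * ((u⁻¹ : (Module.End K V)ˣ) : Module.End K V) ^ i) := by
      show g * (N * ((u : Module.End K V) ^ i * z * _)) = _
      have e1 : N * (u : Module.End K V) ^ i = (u : Module.End K V) ^ i * N := (hNu.pow_right i).eq
      have e2 : g * (u : Module.End K V) ^ i = (u : Module.End K V) ^ i * g :=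
        (hgu.pow_left i).eq.symm
      rw [mul_assoc ((u : Module.End K V) ^ i), ← mul_assoc N, e1, ← mul_assoc g, ← mul_assoc g, e2]
      simp only [mul_assoc]
    rw [h1, LinearMap.trace_mul_comm, mul_assoc, hinv, mul_one]
  have hsum : (s : K) * LinearMap.trace K V (g * (N * z)) =
      LinearMap.trace K V (g * (N * z₁)) := by
    rw [hz₁, Finset.mul_sum, Finset.mul_sum, map_sum, Finset.sum_congr rfl (fun i _ => htr i),
      Finset.sum_const, Finset.card_range, nsmul_eq_mul]
  have hgz₁ : Commute g z₁ := by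
    rw [hz₁]
    exact Commute.sum_right _ _ _ fun i _ => hgf i
  have hnil : IsNilpotent (g * (N * z₁)) := by
    have h1 : Commute N z₁ := hNc _ hcomm
    have h2 : Commute N g := hNc _ hgu
    have e : g * (N * z₁) = N * (g * z₁) := by
      rw [← mul_assoc, ← h2.eq, mul_assoc]
    rw [e]
    exact (h2.mul_right h1).isNilpotent_mul_right hN
  rw [trace_nilp hnil] at hsum
  exact (mul_eq_zero.1 hsum).resolve_left (Nat.cast_ne_zero.2 hs.ne')

end LA

variable {k : Type u} [Field k] {𝒱 : VarClass k} {ops : CycleOps 𝒱}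
  {W : WeilCohomology.{u, v} ops} {X : 𝒱.Obj} {D : X.Cycles} {p : ℕ} (Φ : FrobSystem W p)

/-- Polynomials in an operator commute with its commutant. -/
lemma commute_aeval {K : Type*} [Field K] {A : Type*} [Ring A]
    [Algebra K A] {F y : A} (h : Commute F y) {Q : K[X]} : Commute (aeval F Q) y := by
  induction Q using Polynomial.induction_on' with
  | add P Q hP hQ => rw [map_add]; exact hP.add_left hQ
  | monomial n c =>
    rw [aeval_monomial]
    exact Commute.mul_left (Algebra.commutes c y) (h.pow_left n)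

lemma corr_sum' {Y : 𝒱.Obj} (s : Finset ℕ) (c : ℕ → W.H (X.prod Y)) :
    W.corr (∑ j ∈ s, c j) = ∑ j ∈ s, W.corr (c j) := by
  classical
  induction s using Finset.induction_on with
  | empty => rw [Finset.sum_empty, Finset.sum_empty, corr_zero]
  | insert a s ha ih => rw [Finset.sum_insert ha, Finset.sum_insert ha, corr_add, ih]

lemma frobGraph_mem (r : ℕ) : (X.prod X).IsCyc X.dim (frobGraph Φ X r) :=
  ops.push_mem _ X.V.fundCycle_mem (by rw [dim_prod, zero_add])

lemma frobCycle_mem (hD : X.IsCyc 1 D) {d : ℕ} (hd : d ≤ X.dim) (P : ℚ[X]) :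
    (X.prod X).IsCyc (2 * X.dim - d) (frobCycle Φ X D d P) := by
  have key : ∀ s : Finset ℕ, (X.prod X).IsCyc (2 * X.dim - d)
      (∑ j ∈ s, P.coeff j • divPow ops (ops.pull (snd X X) D) (X.dim - d) (frobGraph Φ X j)) := by
    intro s
    classical
    induction s using Finset.induction_on with
    | empty =>
      rw [Finset.sum_empty]
      exact SmVar.IsCyc.zero _ _
    | insert a s ha ih =>
      rw [Finset.sum_insert ha]
      refine SmVar.IsCyc.add (SmVar.IsCyc.smul _ ?_) ih
      have := divPow_mem (ops := ops) (ops.pull_mem (snd X X) hD) (X.dim - d)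
        (frobGraph_mem Φ (X := X) a)
      rwa [show X.dim + (X.dim - d) = 2 * X.dim - d by omega] at this
  exact key _

/-- The operator of the Frobenius cycle. -/
lemma corr_frobCycle (hD : X.IsCyc 1 D) (d : ℕ) (P : ℚ[X]) :
    W.corr (W.cl _ (frobCycle Φ X D d P)) =
      (LinearMap.mulLeft W.K (W.cl X D)) ^ (X.dim - d) *
        aeval (frob Φ X 1) (P.map (algebraMap ℚ W.K)) := by
  have hpow : ∀ (m : ℕ) (c : W.H (X.prod X)),
      W.corr ((LinearMap.mulLeft W.K (W.cl _ (ops.pull (snd X X) D)) ^ m) c) =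
        (LinearMap.mulLeft W.K (W.cl X D)) ^ m * W.corr c := by
    intro m c
    induction m with
    | zero => rw [pow_zero, pow_zero, one_mul, Module.End.one_apply]
    | succ m ih =>
      rw [pow_succ', Module.End.mul_apply, LinearMap.mulLeft_apply, W.cl_pull, corr_snd' _ _
        (W.cl_mem hD), ← W.cl_pull, ih, pow_succ', mul_assoc]
      rfl
  rw [frobCycle, map_sum, corr_sum', aeval_eq_sum_range, natDegree_map, Finset.mul_sum]
  refine Finset.sum_congr rfl fun j _ => ?_
  rw [W.cl_smul, corr_smul, cl_divPow, hpow, frobGraph, corr_graph, coeff_map, mul_smul_comm]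
  have h2 : (W.map (W534.iter (Φ.Fr X) j)).toLinearMap = frob Φ X 1 ^ j := by
    rw [← frob_mul_eq, one_mul]
    rfl
  rw [h2]
  rfl


/-- `D` defined over the field: commutation of `L` with Frobenius. -/
lemma frob_L (hDef : IsDefined Φ X D) (m : ℕ) :
    frob Φ X 1 * (LinearMap.mulLeft W.K (W.cl X D)) ^ m =
      ((card Φ X 1 : W.K) ^ m) • ((LinearMap.mulLeft W.K (W.cl X D)) ^ m * frob Φ X 1) := by
  have h1 : frob Φ X 1 * LinearMap.mulLeft W.K (W.cl X D) =
      (card Φ X 1 : W.K) • (LinearMap.mulLeft W.K (W.cl X D) * frob Φ X 1) := by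
    apply LinearMap.ext
    intro x
    show W.map (W534.iter (Φ.Fr X) 1) (W.cl X D * x) =
      (card Φ X 1 : W.K) • (W.cl X D * W.map (W534.iter (Φ.Fr X) 1) x)
    have h2 : W.map (W534.iter (Φ.Fr X) 1) (W.cl X D) = (card Φ X 1 : W.K) • W.cl X D := hDef
    rw [map_mul, h2, smul_mul_assoc]
  induction m with
  | zero => rw [pow_zero, pow_zero, one_smul, one_mul, mul_one]
  | succ m ih =>
    rw [pow_succ (LinearMap.mulLeft W.K (W.cl X D)), ← mul_assoc, ih, smul_mul_assoc, mul_assoc,
      h1, mul_smul_comm, smul_smul, ← pow_succ, mul_assoc]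

/-- Iterates. -/
lemma frob_pow_L (hDef : IsDefined Φ X D) (m s : ℕ) :
    frob Φ X 1 ^ s * (LinearMap.mulLeft W.K (W.cl X D)) ^ m =
      (((card Φ X 1 : W.K) ^ m) ^ s) •
        ((LinearMap.mulLeft W.K (W.cl X D)) ^ m * frob Φ X 1 ^ s) := by
  induction s with
  | zero => rw [pow_zero, pow_zero, one_smul, one_mul, mul_one]
  | succ s ih =>
    rw [pow_succ' (frob Φ X 1), mul_assoc, ih, mul_smul_comm, ← mul_assoc, frob_L Φ hDef,
      smul_mul_assoc, smul_smul, ← pow_succ, mul_assoc]

/-- **The Frobenius cycle is numerically trivial.** -/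
theorem frobCycle_numZero {σ : W.K →+* ℂ} (hp : 1 < p) (hRH : RiemannHyp Φ σ X)
    (hD : X.IsCyc 1 D) (hDef : IsDefined Φ X D) {d : ℕ} (hd : d ≤ X.dim) {P : ℚ[X]}
    (hP : IsPointPoly Φ X P) :
    NumZero ops (X.prod X) (2 * X.dim - d) (frobCycle Φ X D d P) := by
  refine ⟨frobCycle_mem Φ hD hd P, fun w hw => ?_⟩
  set F := frob Φ X 1 with hF
  set L := LinearMap.mulLeft W.K (W.cl X D) with hL
  set N := aeval F (P.map (algebraMap ℚ W.K)) with hN
  have hdim : (X.prod X).dim = 2 * X.dim := by rw [dim_prod, two_mul]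
  have hwd : (X.prod X).IsCyc d w := by
    rwa [hdim, show 2 * X.dim - (2 * X.dim - d) = d by omega] at hw
  have hcm := frobCycle_mem Φ hD hd P
  have hmul : (X.prod X).IsCyc (X.prod X).dim (ops.mul (frobCycle Φ X D d P) w) := by
    have := ops.mul_mem hcm hwd
    rwa [show 2 * X.dim - d + d = (X.prod X).dim by omega] at this
  have e0 : (((X.prod X).V.degCycle (ops.mul (frobCycle Φ X D d P) w) : ℚ) : W.K) = 0 := by
    rw [← W.tr_cl hmul, W.cl_mul, tr_mul_eq_trace (W.cl_mem hcm), corr_frobCycle Φ hD, ← W.cl_pull]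
    set w' := ops.pull (swap X X) w with hw'
    have hw'm : (X.prod X).IsCyc d w' := ops.pull_mem _ hwd
    set y := W.corr (W.cl _ w') with hy
    -- commutation of `y` with a power of Frobenius
    obtain ⟨a, b, S, ha, hb, hSF, hSG, hχ1, hχ2⟩ := exists_symX' Φ X
    obtain ⟨s, hs, hcyc⟩ := Φ.cyc hw'm
    have hG : S.G s (W.cl _ w') = S.χ s ^ d • W.cl _ w' := by
      have h1 := W534.frob_mul Φ hcyc a
      rw [mul_comm s a] at h1
      rw [hSG, h1, hχ1, card, Nat.cast_pow, ← pow_mul]
    have hFs : ∀ x, S.F s x = (F ^ (b * s)) x := by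
      intro x
      rw [hSF, hF, ← frob_mul_eq, one_mul]
      rfl
    have hact : ∀ x, S.χ s ^ d • y ((F ^ (b * s)) x) = S.χ s ^ X.dim • (F ^ (b * s)) (y x) := by
      intro x
      have h1 := S.corr_act s (W.cl _ w') x
      rw [hG, corr_smul, LinearMap.smul_apply, hFs, hFs] at h1
      exact h1
    have hχ : S.χ s = (card Φ X 1 : W.K) ^ (b * s) := by
      rw [hχ2, card, card, Nat.cast_pow, Nat.cast_pow, ← pow_mul, mul_one]
    have hχ0 : S.χ s ≠ 0 := S.ne s
    set m := X.dim - d with hm
    have hz : Commute (F ^ (b * s)) (y * L ^ m) := by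
      apply LinearMap.ext
      intro x
      have h1 := hact ((L ^ m) x)
      have h2 : (F ^ (b * s)) ((L ^ m) x) = S.χ s ^ m • (L ^ m) ((F ^ (b * s)) x) := by
        have h3 := congrArg (fun f => f x) (frob_pow_L Φ hDef m (b * s))
        have h4 : S.χ s ^ m = ((card Φ X 1 : W.K) ^ m) ^ (b * s) := by
          rw [hχ, ← pow_mul, ← pow_mul, mul_comm]
        rw [h4]
        exact h3
      rw [h2, map_smul, smul_smul, ← pow_add, show d + m = X.dim by omega] at h1
      exact (smul_right_injective _ (pow_ne_zero _ hχ0) h1).symm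
    -- degrees
    have hLh : IsHom (W.gr X) 2 L := by
      have := (SymX.kop_opAlg W X).hom (kop_L (W := W) hD)
      simpa using this
    have hLm : IsHom (W.gr X) (2 * m) (L ^ m) := by
      have := hLh.pow m
      rwa [mul_comm] at this
    have hyh : IsHom (W.gr X) (2 * ((d : ℤ) - X.dim)) y := W.corr_isHom (W.cl_mem hw'm)
    have hzh : IsHom (W.gr X) (2 * 0) (y * L ^ m) := by
      have := hyh.mul hLm
      rwa [show 2 * ((d : ℤ) - X.dim) + 2 * (m : ℤ) = 2 * 0 by omega] at this
    have hFh : IsHom (W.gr X) (2 * 0) F := by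
      rw [mul_zero]
      exact frob_hom Φ 1
    -- the unit
    have hu : IsUnit F := by
      rw [Module.End.isUnit_iff]
      exact ⟨map_iter_injective Φ 1, map_iter_surjective Φ 1⟩
    obtain ⟨u, hu⟩ := hu
    have hNnil : IsNilpotent N := (recurrence_iff Φ hp hRH P).1 hP.2.2
    have hNc : ∀ y, Commute (u : Module.End W.K (W.H X)) y → Commute N y := by
      intro y' hy'
      rw [hN, ← hu]
      exact commute_aeval hy'
    have key := trace_avg (K := W.K) (u := u) (s := b * s) (N := N) (z := y * L ^ m)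
      (g := par (W.isInternal X)) (Nat.mul_pos hb hs) hNnil hNc
      (by rw [hu]; exact (hFh.par_comm (W.isInternal X)).symm)
      (hzh.par_comm (W.isInternal X)) (by rw [hu]; exact hz)
    have hpl : par (W.isInternal X) * L ^ m = L ^ m * par (W.isInternal X) :=
      hLm.par_comm (W.isInternal X)
    have e1 : par (W.isInternal X) * (L ^ m * N) * y = L ^ m * (par (W.isInternal X) * (N * y)) := by
      rw [← mul_assoc (par (W.isInternal X)), hpl]
      simp only [mul_assoc]
    rw [e1, LinearMap.trace_mul_comm]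
    have e2 : par (W.isInternal X) * (N * y) * L ^ m = par (W.isInternal X) * (N * (y * L ^ m)) := by
      simp only [mul_assoc]
    rw [e2]
    exact key
  exact_mod_cast e0

end Pool.Agent.Q82.SF
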