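import Pool.Agent.Q82.SF.CycB

/-!
# The Frobenius cycle and semisimplicity
-/

set_option autoImplicit false
set_option linter.unusedSectionVars false

open CategoryTheory AlgebraicGeometry Filter Polynomial

universe u v

namespace Pool.Agent.Q82.SF

open Pool.Agent.H914 Pool.Agent.H447 Pool.Agent.W534 Pool.Agent.Q82.OC VarClass Obj WeilCohomology

section LA

variable {K : Type*} [Field K] [CharZero K] {V V' : Type*} [AddCommGroup V] [Module K V]
  [AddCommGroup V'] [Module K V']

lemma squarefree_map' {P : ℚ[X]} (hP : Squarefree P) : Squarefree (P.map (algebraMap ℚ K)) :=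
  ((PerfectField.separable_iff_squarefree.2 hP).map (f := algebraMap ℚ K)).squarefree

lemma aeval_intertwine {S : Module.End K V'} {T : Module.End K V} {f : V →ₗ[K] V'}
    (h : ∀ x, S (f x) = f (T x)) (Q : K[X]) (x : V) : aeval S Q (f x) = f (aeval T Q x) := by
  induction Q using Polynomial.induction_on' with
  | add P Q hP hQ => rw [map_add, map_add, LinearMap.add_apply, LinearMap.add_apply, map_add, hP, hQ]
  | monomial n c =>
    have h1 : ∀ (n : ℕ) (x : V), (S ^ n) (f x) = f ((T ^ n) x) := by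
      intro n
      induction n with
      | zero => intro x; rfl
      | succ n ih =>
        intro x
        rw [pow_succ, pow_succ, Module.End.mul_apply, Module.End.mul_apply, h, ih]
    rw [aeval_monomial, aeval_monomial, Module.End.mul_apply, Module.End.mul_apply,
      Module.algebraMap_end_apply, Module.algebraMap_end_apply, h1, map_smul]

lemma apply_eq_zero_of_pow {T : Module.End K V} [Module.Finite K V] (hT : T.IsSemisimple) {y : V} {m : ℕ}
    (h : (T ^ m) y = 0) : T y = 0 := by
  have h1 : y ∈ T.maxGenEigenspace 0 := by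
    rw [Module.End.mem_maxGenEigenspace]
    exact ⟨m, by rwa [zero_smul, sub_zero]⟩
  rw [hT.isFinitelySemisimple.maxGenEigenspace_eq_eigenspace, Module.End.mem_eigenspace_iff,
    zero_smul] at h1
  exact h1

end LA

variable {k : Type u} [Field k] {𝒱 : VarClass k} {ops : CycleOps 𝒱}
  {W : WeilCohomology.{u, v} ops} {X : 𝒱.Obj} {D : X.Cycles} {p : ℕ} (Φ : FrobSystem W p)

lemma kill_of_semisimple {Q : W.K[X]} (hnil : IsNilpotent (aeval (frob Φ X 1) Q)) {i : ℕ}
    (h : FrobSemisimple Φ X i) {x : W.H X} (hx : x ∈ W.gr X i) : aeval (frob Φ X 1) Q x = 0 := by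
  rw [frobSemisimple_iff] at h
  have h1 : (aeval (frobOn Φ X 1 i) Q).IsSemisimple := h.aeval Q
  obtain ⟨n, hn⟩ := hnil
  have h2 : ((aeval (frobOn Φ X 1 i) Q) ^ n) ⟨x, hx⟩ = 0 := by
    rw [← map_pow]
    apply Subtype.ext
    rw [aeval_frobOn, map_pow, hn]
    rfl
  have h3 := apply_eq_zero_of_pow h1 h2
  have h4 := aeval_frobOn Φ 1 i Q ⟨x, hx⟩
  rw [h3] at h4
  exact h4.symm

/-- **The main theorem on the Frobenius cycle.** -/
theorem frobCycle_tfae {σ : W.K →+* ℂ} (hp : 1 < p) (hRH : RiemannHyp Φ σ X)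
    (hD : X.IsCyc 1 D) (hDef : IsDefined Φ X D) (hHL : HardLefschetz W X D) {d : ℕ}
    (hd : d ≤ X.dim) {P : ℚ[X]} (hP : IsPointPoly Φ X P) :
    List.TFAE [
      W.cl _ (frobCycle Φ X D d P) = 0,
      ∀ i ≤ d, FrobSemisimple Φ X i,
      SemisimpleOuter Φ X d] := by
  have hnil := (recurrence_iff Φ hp hRH P).1 hP.2.2
  set F := frob Φ X 1 with hF
  set L := LinearMap.mulLeft W.K (W.cl X D) with hL
  set Q := P.map (algebraMap ℚ W.K) with hQ
  set m := X.dim - d with hm
  have hLh : IsHom (W.gr X) 2 L := by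
    have := (SymX.kop_opAlg W X).hom (kop_L (W := W) hD)
    simpa using this
  tfae_have 1 → 2 := by
    intro h i hi
    have h1 : L ^ m * aeval F Q = 0 := by
      rw [← corr_frobCycle Φ hD, h, corr_zero]
    have hinj : ∀ y ∈ W.gr X i, (L ^ m) y = 0 → y = 0 := by
      intro y hy h0
      obtain ⟨r, hr⟩ : ∃ r, X.dim - i = r + m := ⟨X.dim - i - m, by omega⟩
      apply (hHL i (hi.trans hd)).1 y hy
      show (L ^ (X.dim - i)) y = 0
      rw [hr, pow_add, Module.End.mul_apply, h0, map_zero]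
    have h2 : aeval (frobOn Φ X 1 i) Q = 0 := by
      apply LinearMap.ext
      rintro ⟨x, hx⟩
      apply Subtype.ext
      rw [aeval_frobOn]
      apply hinj
      · rw [← hF, ← aeval_frobOn Φ 1 i Q ⟨x, hx⟩]
        exact Subtype.prop _
      · exact congrArg (fun f => f x) h1
    rw [frobSemisimple_iff]
    exact Module.End.isSemisimple_of_squarefree_aeval_eq_zero (squarefree_map' hP.2.1) h2
  tfae_have 2 → 3 := by
    intro h i hi hi'
    by_cases h1 : i ≤ d
    · exact h i h1
    · have := semisimple_dual Φ hD hHL (i := 2 * X.dim - i) (by omega) (h _ (by omega))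
      rwa [show 2 * X.dim - (2 * X.dim - i) = i by omega] at this
  tfae_have 3 → 1 := by
    intro h
    apply corr_inj
    rw [corr_frobCycle Φ hD]
    apply gr_ext (W.isInternal X)
    intro j x hx
    rw [LinearMap.zero_apply]
    show (L ^ m) (aeval F Q x) = 0
    have hmem : ∀ x ∈ W.gr X j, (L ^ m) x ∈ W.gr X (j + 2 * m) := fun x hx =>
      pow_L_mem hLh hx m
    by_cases hj : j ≤ d
    · rw [kill_of_semisimple Φ hnil (h j (by omega) (Or.inl hj)) hx, map_zero]
    · by_cases hj2 : j + 2 * m ≤ 2 * X.dim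
      · have h1 := h (j + 2 * m) hj2 (Or.inr (by omega))
        rw [frobSemisimple_iff] at h1
        let f : W.gr X j →ₗ[W.K] W.gr X (j + 2 * m) := (L ^ m).restrict hmem
        set μ := (card Φ X 1 : W.K) ^ m with hμ
        have hμ0 : μ ≠ 0 := pow_ne_zero _ (card_ne Φ 1)
        have hS : (μ⁻¹ • frobOn Φ X 1 (j + 2 * m)).IsSemisimple :=
          Module.End.IsSemisimple_smul _ h1
        have hint : ∀ y, (μ⁻¹ • frobOn Φ X 1 (j + 2 * m)) (f y) = f (frobOn Φ X 1 j y) := by
          intro y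
          apply Subtype.ext
          show μ⁻¹ • (frob Φ X 1 ((L ^ m) (y : W.H X))) = (L ^ m) (frob Φ X 1 (y : W.H X))
          have h2 := congrArg (fun f => f (y : W.H X)) (frob_L Φ hDef m)
          have h3 : frob Φ X 1 ((L ^ m) (y : W.H X)) = μ • (L ^ m) (frob Φ X 1 (y : W.H X)) := h2
          rw [h3, smul_smul, inv_mul_cancel₀ hμ0, one_smul]
        obtain ⟨N, hN⟩ := hnil
        have h2 : ((aeval (μ⁻¹ • frobOn Φ X 1 (j + 2 * m)) Q) ^ N) (f ⟨x, hx⟩) = 0 := by
          rw [← map_pow, aeval_intertwine hint]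
          have h3 : aeval (frobOn Φ X 1 j) (Q ^ N) ⟨x, hx⟩ = 0 := by
            apply Subtype.ext
            rw [aeval_frobOn, map_pow, hN]
            rfl
          rw [h3, map_zero]
        have h3 := apply_eq_zero_of_pow (hS.aeval Q) h2
        rw [aeval_intertwine hint] at h3
        have h4 : (L ^ m) ((aeval (frobOn Φ X 1 j) Q ⟨x, hx⟩ : W.gr X j) : W.H X) = 0 :=
          congrArg Subtype.val h3
        rwa [aeval_frobOn] at h4
      · have h1 : aeval F Q x ∈ W.gr X j := by
          rw [← aeval_frobOn Φ 1 j Q ⟨x, hx⟩]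
          exact Subtype.prop _
        have h2 := hmem _ h1
        rw [W.gr_eq_bot X _ (by omega)] at h2
        exact (Submodule.mem_bot _).1 h2
  tfae_finish

/-- **Semisimplicity of Frobenius from one explicit numerically trivial cycle.** -/
theorem one_cycle {σ : W.K →+* ℂ} (hp : 1 < p) (hRH : RiemannHyp Φ σ X)
    (hD : X.IsCyc 1 D) (hDef : IsDefined Φ X D) (hHL : HardLefschetz W X D) {d : ℕ}
    (hd : d ≤ X.dim) :
    (∃ P, IsPointPoly Φ X P) ∧ ∀ P, IsPointPoly Φ X P →
      NumZero ops (X.prod X) (2 * X.dim - d) (frobCycle Φ X D d P) ∧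
      List.TFAE [
        W.cl _ (frobCycle Φ X D d P) = 0,
        ∀ i ≤ d, FrobSemisimple Φ X i,
        SemisimpleOuter Φ X d] :=
  ⟨exists_pointPoly Φ hp hRH, fun _ hP => ⟨frobCycle_numZero Φ hp hRH hD hDef hd hP,
    frobCycle_tfae Φ hp hRH hD hDef hHL hd hP⟩⟩

end Pool.Agent.Q82.SF
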