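import Pool.Agent.Q82.SF.Defs
import Pool.Agent.H914R2.HodgeDefs

/-!
# The Frobenius cycle: definitions
-/

set_option autoImplicit false

open CategoryTheory AlgebraicGeometry Finset

universe u v

namespace Pool.Agent.Q82.SF

open Pool.Agent.H914 VarClass Obj WeilCohomology Pool.Agent.W534

variable {k : Type u} [Field k] {𝒱 : VarClass k} {ops : CycleOps 𝒱}
  {W : WeilCohomology.{u, v} ops} {p : ℕ}

/-- The (transpose of the) graph of the `r`-th iterate of the Frobenius endomorphism of `X`, a cycle
of codimension `dim X` on `X × X`. -/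
noncomputable def frobGraph (Φ : FrobSystem W p) (X : 𝒱.Obj) (r : ℕ) : (X.prod X).Cycles :=
  ops.push (Obj.lift (iter (Φ.Fr X) r) (𝟙 X)) X.V.fundCycle

/-- The number of fixed points of the `r`-th iterate of the Frobenius endomorphism: the intersection
number of its graph with the diagonal. (The number of points of the model of `X` over the finite
field with `card Φ X r` elements.) -/
noncomputable def points (Φ : FrobSystem W p) (X : 𝒱.Obj) (r : ℕ) : ℚ :=
  X.V.degCycle (ops.pull (diag X) (frobGraph Φ X r))

/-- `P` is a monic polynomial with rational coefficients without multiple factors, and its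
coefficients are the coefficients of a linear recurrence for the numbers of points:
`∑ P_j N_(j + r) = 0` for all `r ≥ 1`. -/
def IsPointPoly (Φ : FrobSystem W p) (X : 𝒱.Obj) (P : Polynomial ℚ) : Prop :=
  P.Monic ∧ Squarefree P ∧
    ∀ r, 1 ≤ r → ∑ j ∈ range (P.natDegree + 1), P.coeff j * points Φ X (j + r) = 0

/-- The cycle `D ^ (n - d) · ∑ P_j Γ_j` of dimension `d` on `X × X`, where `Γ_j` is the graph of the
`j`-th iterate of the Frobenius endomorphism, `n = dim X`, and `D` stands for its pull-back to
`X × X` along the second projection. -/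
noncomputable def frobCycle (Φ : FrobSystem W p) (X : 𝒱.Obj) (D : X.Cycles) (d : ℕ)
    (P : Polynomial ℚ) : (X.prod X).Cycles :=
  ∑ j ∈ range (P.natDegree + 1),
    P.coeff j • divPow ops (ops.pull (snd X X) D) (X.dim - d) (frobGraph Φ X j)

/-- The divisor `D` is defined over the field of definition of the Frobenius endomorphism: the
Frobenius endomorphism over the field with `q` elements multiplies the class of `D` by `q`. -/
def IsDefined (Φ : FrobSystem W p) (X : 𝒱.Obj) (D : X.Cycles) : Prop :=
  frobLin Φ X 1 (W.cl X D) = (card Φ X 1 : W.K) • W.cl X D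

/-- The cycle `z` of codimension `q` is numerically equivalent to zero. -/
def NumZero (ops : CycleOps 𝒱) (Y : 𝒱.Obj) (q : ℕ) (z : Y.Cycles) : Prop :=
  Y.IsCyc q z ∧ ∀ w, Y.IsCyc (Y.dim - q) w → Y.V.degCycle (ops.mul z w) = 0

end Pool.Agent.Q82.SF
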