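import Pool.Agent.W534.PoleDefs

/-!
# Semisimplicity of the Frobenius endomorphism: definitions
-/

set_option autoImplicit false

open CategoryTheory AlgebraicGeometry

universe u v

namespace Pool.Agent.Q82.SF

open Pool.Agent.H914 VarClass Obj WeilCohomology Pool.Agent.W534

section Lin

variable {K : Type*} [Field K] {V : Type*} [AddCommGroup V] [Module K V]

/-- The operator `f` acts semisimply on the stable subspace `S`: every stable subspace of `S` has a
stable complement in `S`. -/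
def SemisimpleOn (f : V →ₗ[K] V) (S : Submodule K V) : Prop :=
  ∀ U ≤ S, (∀ x ∈ U, f x ∈ U) →
    ∃ U' ≤ S, (∀ x ∈ U', f x ∈ U') ∧ Disjoint U U' ∧ U ⊔ U' = S

/-- The power `m` of `f - μ` is zero on `S`. -/
def KilledBy (f : Module.End K V) (μ : K) (S : Submodule K V) (m : ℕ) : Prop :=
  ∀ x ∈ S, ((f - μ • (1 : Module.End K V)) ^ m) x = 0

end Lin

variable {k : Type u} [Field k] {𝒱 : VarClass k} {ops : CycleOps 𝒱}

/-- The Frobenius endomorphism of the model of `X` over the field with `card Φ X s` elements, on the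
cohomology of `X`. -/
noncomputable def frobLin {W : WeilCohomology.{u, v} ops} {p : ℕ} (Φ : FrobSystem W p)
    (X : 𝒱.Obj) (s : ℕ) : Module.End W.K (W.H X) :=
  (W.map (iter (Φ.Fr X) s)).toLinearMap

/-- The Frobenius endomorphism `Fr X` acts semisimply on `H^i(X)`. -/
def FrobSemisimple {W : WeilCohomology.{u, v} ops} {p : ℕ} (Φ : FrobSystem W p) (X : 𝒱.Obj)
    (i : ℕ) : Prop :=
  SemisimpleOn (frobLin Φ X 1) (W.gr X i)

/-- The order of the pole at the integer `j` of the zeta function of `X` exceeds the rank of the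
group of the cycles of codimension `j` on `X` modulo numerical equivalence by at most `δ`, over
arbitrarily large finite fields (that is, over a field which contains any given finite field). -/
def PoleExcessLE {W : WeilCohomology.{u, v} ops} {p : ℕ} (Φ : FrobSystem W p) (σ : W.K →+* ℂ)
    (X : 𝒱.Obj) (j δ : ℕ) : Prop :=
  ∀ t, 0 < t → ∃ s, 0 < s ∧ t ∣ s ∧ ∃ r : ℕ,
    meromorphicOrderAt (zetaFn Φ σ X s) (j : ℂ) = ((-(r : ℤ) : ℤ) : WithTop ℤ) ∧
      r ≤ numRank ops X j + δ

/-- The Jordan blocks of the Frobenius endomorphisms on `H^(2 j)(X)` for the eigenvalue `q ^ j` have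
size at most `m`, over arbitrarily large finite fields. -/
def BlocksLE {W : WeilCohomology.{u, v} ops} {p : ℕ} (Φ : FrobSystem W p) (X : 𝒱.Obj)
    (j m : ℕ) : Prop :=
  ∀ t, 0 < t → ∃ s, 0 < s ∧ t ∣ s ∧
    KilledBy (frobLin Φ X s) ((card Φ X s : W.K) ^ j) (genTate Φ X s j) m

/-- Frobenius is semisimple on `H^i(X)` for all `i ≤ d` and for all `i ≥ 2 n - d`, `n = dim X`. -/
def SemisimpleOuter {W : WeilCohomology.{u, v} ops} {p : ℕ} (Φ : FrobSystem W p) (X : 𝒱.Obj)
    (d : ℕ) : Prop :=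
  ∀ i ≤ 2 * X.dim, i ≤ d ∨ 2 * X.dim - d ≤ i → FrobSemisimple Φ X i

/-- `BlocksLE` for the square of `X`. -/
def SquareBlocksLE {W : WeilCohomology.{u, v} ops} {p : ℕ} (Φ : FrobSystem W p) (X : 𝒱.Obj)
    (j m : ℕ) : Prop :=
  BlocksLE Φ (X.prod X) j m

/-- `PoleExcessLE` for the square of `X`, which satisfies the Riemann hypothesis. -/
def SquarePoleExcessLE {W : WeilCohomology.{u, v} ops} {p : ℕ} (Φ : FrobSystem W p)
    (σ : W.K →+* ℂ) (X : 𝒱.Obj) (j δ : ℕ) : Prop :=
  RiemannHyp Φ σ (X.prod X) ∧ PoleExcessLE Φ σ (X.prod X) j δ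

end Pool.Agent.Q82.SF
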