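import Pool.Agent.Q82.SF.Sq
import Pool.Agent.Q82.SF.Defs
import Pool.Agent.Q82.OC.Fin

/-!
# Semisimplicity of the Frobenius endomorphism and poles of the zeta function of the square
-/

set_option autoImplicit false
set_option linter.unusedSectionVars false

open CategoryTheory AlgebraicGeometry Filter

universe u v

namespace Pool.Agent.Q82.SF

open Pool.Agent.H914 Pool.Agent.H447 Pool.Agent.W534 Pool.Agent.Q82.OC VarClass Obj WeilCohomology

variable {k : Type u} [Field k] {𝒱 : VarClass k} {ops : CycleOps 𝒱}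
  {W : WeilCohomology.{u, v} ops} {X Z : 𝒱.Obj} {D : X.Cycles} {p : ℕ} (Φ : FrobSystem W p)

/-- The automorphisms given by the powers of the Frobenius endomorphisms. -/
theorem exists_symX' (X : 𝒱.Obj) : ∃ (a b : ℕ) (S : SymX W X ℕ), 0 < a ∧ 0 < b ∧
    (∀ t x, S.F t x = W.map (W534.iter (Φ.Fr X) (b * t)) x) ∧
    (∀ t x, S.G t x = W.map (W534.iter (Φ.Fr (X.prod X)) (a * t)) x) ∧
    (∀ t, S.χ t = (card Φ (X.prod X) (a * t) : W.K)) ∧
    ∀ t, S.χ t = (card Φ X (b * t) : W.K) := by
  obtain ⟨a, b, ha, hb, hab, hf, hs⟩ := exists_common Φ X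
  have hexp : ∀ t j, Φ.e (X.prod X) * (a * t) * j = Φ.e X * (b * t) * j := by
    intro t j
    calc Φ.e (X.prod X) * (a * t) * j = (a * Φ.e (X.prod X)) * t * j := by ring
      _ = Φ.e X * (b * t) * j := by rw [hab]; ring
  have hG : ∀ {j c}, (∃ s, 0 < s ∧ W.map (W534.iter (Φ.Fr (X.prod X)) s) c =
      ((p : W.K) ^ (Φ.e (X.prod X) * s * j)) • c) → ∀ᶠ t in divFilter,
      W.map (W534.iter (Φ.Fr (X.prod X)) (a * t)) c = ((p : W.K) ^ (Φ.e X * (b * t))) ^ j • c := by
    rintro j c ⟨s, hs, h⟩
    refine eventually_div.2 ⟨s, hs, ?_⟩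
    rintro _ - ⟨t, rfl⟩
    have := W534.frob_mul Φ h (a * t)
    rw [show s * (a * t) = a * (s * t) by ring, hexp] at this
    rw [this, ← pow_mul]
  refine ⟨a, b, {
    fil := divFilter
    F := fun t => W.map (W534.iter (Φ.Fr X) (b * t))
    G := fun t => W.map (W534.iter (Φ.Fr (X.prod X)) (a * t))
    χ := fun t => (p : W.K) ^ (Φ.e X * (b * t))
    ne := fun t => pow_ne_zero _ (cast_p_ne Φ)
    surj := fun t => map_iter_surjective Φ _
    degF := fun t i x hx => W.map_mem _ hx
    trF := fun t x => by rw [tr_iter, ← pow_mul]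
    trG := fun t x => by rw [tr_iter, ← pow_mul, hexp, dim_prod]
    fst := hf
    snd := hs
    cyc := fun hz => hG (Φ.cyc hz) }, ha, hb, fun t x => rfl, fun t x => rfl, fun t => ?_,
    fun t => ?_⟩
  · show (p : W.K) ^ (Φ.e X * (b * t)) = _
    rw [card, Nat.cast_pow]
    congr 1
    have := hexp t 1
    simpa using this.symm
  · show (p : W.K) ^ (Φ.e X * (b * t)) = _
    rw [card, Nat.cast_pow]

/-- Semisimplicity in terms of the restriction. -/
lemma frobSemisimple_iff {i : ℕ} :
    FrobSemisimple Φ X i ↔ (frobOn Φ X 1 i).IsSemisimple := by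
  have h1 := Module.End.isSemisimple_restrict_iff (f := (W.map (W534.iter (Φ.Fr X) 1)).toLinearMap)
    (W.gr X i) (fun _ hx => W.map_mem _ hx)
  have h2 : (frobOn Φ X 1 i).IsSemisimple ↔ _ := h1
  rw [h2]
  constructor
  · intro h q hq hqi
    obtain ⟨r, hr1, hr2, hr3, hr4⟩ := h q hqi (fun x hx => hq hx)
    exact ⟨r, hr1, fun x hx => hr2 x hx, hr3, hr4⟩
  · intro h q hqi hq
    obtain ⟨r, hr1, hr2, hr3, hr4⟩ := h q (fun x hx => hq x hx) hqi
    exact ⟨r, hr1, fun x hx => hr2 hx, hr3, hr4⟩

lemma frobOn_pow (s m i : ℕ) : frobOn Φ X (s * m) i = frobOn Φ X s i ^ m := by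
  induction m with
  | zero =>
    apply LinearMap.ext
    intro x
    apply Subtype.ext
    show W.map (W534.iter (Φ.Fr X) (s * 0)) (x : W.H X) = x
    rw [mul_zero, W534.map_iter]
    rfl
  | succ m ih =>
    rw [pow_succ', ← ih]
    apply LinearMap.ext
    intro x
    apply Subtype.ext
    show W.map (W534.iter (Φ.Fr X) (s * (m + 1))) (x : W.H X) =
      W.map (W534.iter (Φ.Fr X) s) (W.map (W534.iter (Φ.Fr X) (s * m)) (x : W.H X))
    rw [W534.map_iter_mul, Function.iterate_succ_apply', ← W534.map_iter_mul]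

lemma frobOn_injective (s i : ℕ) : Function.Injective (frobOn Φ X s i) := by
  intro x y hxy
  apply Subtype.ext
  exact map_iter_injective Φ s (congrArg Subtype.val hxy)

/-- Semisimplicity may be tested on a power. -/
lemma frobSemisimple_of_pow {s i : ℕ} (hs : 0 < s) (h : (frobOn Φ X s i).IsSemisimple) :
    FrobSemisimple Φ X i := by
  rw [frobSemisimple_iff]
  have h1 := frobOn_pow Φ (X := X) 1 s i
  rw [one_mul] at h1
  rw [h1] at h
  exact semisimple_of_pow (frobOn_injective Φ 1 i) hs.ne' h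

lemma FrobSemisimple.pow {i : ℕ} (h : FrobSemisimple Φ X i) (s : ℕ) :
    (frobOn Φ X s i).IsSemisimple := by
  rw [frobSemisimple_iff] at h
  have h1 := frobOn_pow Φ (X := X) 1 s i
  rw [one_mul] at h1
  rw [h1]
  exact h.pow s

section Defect

/-- **The excess of the pole.** If the Frobenius endomorphism has a Jordan block of size at least
three for the eigenvalue `q ^ j`, then the rank of the intersection pairing is at most the
multiplicity of the eigenvalue minus three. -/
theorem kRank_add_three_le {s j l : ℕ} (hjl : j + l = Z.dim)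
    (hs1 : ∀ c ∈ spanCycles W Z j, frob Φ Z s c = ((card Φ Z s : W.K) ^ j) • c)
    (hs2 : ∀ c ∈ spanCycles W Z l, frob Φ Z s c = ((card Φ Z s : W.K) ^ l) • c)
    {x₀ : W.H Z} (hx₀ : x₀ ∈ genTate Φ Z s j)
    (h : ((frob Φ Z s - ((card Φ Z s : W.K) ^ j) • (1 : Module.End W.K (W.H Z))) ^ 2) x₀ ≠ 0) :
    kRank W Z j l + 3 ≤ Module.finrank W.K (genTate Φ Z s j) := by
  set A := frob Φ Z s - ((card Φ Z s : W.K) ^ j) • (1 : Module.End W.K (W.H Z)) with hA
  have hAg : ∀ y ∈ W.gr Z (2 * j), A y ∈ W.gr Z (2 * j) := by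
    intro y hy
    rw [hA, LinearMap.sub_apply, LinearMap.smul_apply, Module.End.one_apply]
    exact Submodule.sub_mem _ (W.map_mem _ hy) (Submodule.smul_mem _ _ hy)
  have hAG : ∀ y ∈ genTate Φ Z s j, A y ∈ genTate Φ Z s j := by
    intro y hy
    obtain ⟨⟨n, hn⟩, hyg⟩ := (mem_genTate Φ).1 hy
    refine (mem_genTate Φ).2 ⟨⟨n, ?_⟩, hAg y hyg⟩
    rw [← hA] at hn ⊢
    rw [← Module.End.mul_apply, ← pow_succ, pow_succ', Module.End.mul_apply, hn, map_zero]
  -- a vector killed by the third power and not by the second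
  obtain ⟨y, hy, hy2, hy3⟩ : ∃ y ∈ genTate Φ Z s j, (A ^ 2) y ≠ 0 ∧ (A ^ 3) y = 0 := by
    obtain ⟨⟨n, hn⟩, hxg⟩ := (mem_genTate Φ).1 hx₀
    rw [← hA] at hn
    induction n generalizing x₀ with
    | zero =>
      exfalso
      apply h
      rw [pow_zero, Module.End.one_apply] at hn
      rw [hn, map_zero]
    | succ n ih =>
      by_cases h3 : (A ^ 3) x₀ = 0
      · exact ⟨x₀, hx₀, h, h3⟩
      · refine ih (hAG x₀ hx₀) ?_ (hAg x₀ hxg) ?_
        · rw [← Module.End.mul_apply, ← pow_succ]
          exact h3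
        · rw [← Module.End.mul_apply, ← pow_succ]
          exact hn
  set w := (A ^ 2) y with hw
  have hw0 : A w = 0 := by
    rw [hw, ← Module.End.mul_apply, ← pow_succ']
    exact hy3
  have hwG : w ∈ genTate Φ Z s j := by
    rw [hw, pow_two, Module.End.mul_apply]
    exact hAG _ (hAG _ hy)
  -- the restriction
  set V := genTate Φ Z s j with hV
  let N : Module.End W.K V := A.restrict (p := V) (q := V) hAG
  have hN : ∀ v : V, ((N v : V) : W.H Z) = A v := fun v => rfl
  have hker : Module.finrank W.K (LinearMap.range N) + Module.finrank W.K (LinearMap.ker N) =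
      Module.finrank W.K V := LinearMap.finrank_range_add_finrank_ker N
  -- the range has dimension at least two
  have hrange : 2 ≤ Module.finrank W.K (LinearMap.range N) := by
    have hli : LinearIndependent W.K ![(⟨A y, hAG y hy⟩ : V), ⟨w, hwG⟩] := by
      rw [LinearIndependent.pair_iff]
      intro a b hab
      have h1 : a • A y + b • w = 0 := congrArg Subtype.val hab
      have h2 : a • w = 0 := by
        have h3 := congrArg A h1
        rw [map_add, map_smul, map_smul, hw0, smul_zero, add_zero, map_zero,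
          ← Module.End.mul_apply, ← pow_two] at h3
        exact h3
      have ha : a = 0 := (smul_eq_zero.1 h2).resolve_right hy2
      rw [ha, zero_smul, zero_add] at h1
      exact ⟨ha, (smul_eq_zero.1 h1).resolve_right hy2⟩
    have hmem : ∀ i, (![(⟨A y, hAG y hy⟩ : V), ⟨w, hwG⟩]) i ∈ LinearMap.range N := by
      intro i
      fin_cases i
      · exact ⟨⟨y, hy⟩, rfl⟩
      · refine ⟨⟨A y, hAG y hy⟩, ?_⟩
        apply Subtype.ext
        show A (A y) = w
        rw [hw, pow_two, Module.End.mul_apply]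
    have hli' : LinearIndependent W.K (fun i => (⟨_, hmem i⟩ : LinearMap.range N)) :=
      LinearIndependent.of_comp (LinearMap.range N).subtype hli
    have := hli'.fintype_card_le_finrank
    simpa using this
  -- the spans of the cycles
  have hAs : ∀ c ∈ spanCycles W Z j, A c = 0 := by
    intro c hc
    rw [hA, LinearMap.sub_apply, hs1 c hc, LinearMap.smul_apply, Module.End.one_apply, sub_self]
  have hle : spanCycles W Z j ≤ (LinearMap.ker N).map V.subtype := by
    intro c hc
    have hcV : c ∈ V := mem_genTate_of_eig Φ (span_gr hc) (hs1 c hc)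
    refine ⟨⟨c, hcV⟩, ?_, rfl⟩
    show N ⟨c, hcV⟩ = 0
    apply Subtype.ext
    exact hAs c hc
  have hwker : w ∈ (LinearMap.ker N).map V.subtype :=
    ⟨⟨w, hwG⟩, Subtype.ext hw0, rfl⟩
  have hfin : Module.finrank W.K ((LinearMap.ker N).map V.subtype) =
      Module.finrank W.K (LinearMap.ker N) :=
    (LinearEquiv.finrank_eq (Submodule.equivMapOfInjective _ (Submodule.subtype_injective V)
      (LinearMap.ker N))).symm
  have hrank : kRank W Z j l + 1 ≤ Module.finrank W.K (LinearMap.ker N) := by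
    rw [← hfin]
    by_cases hws : w ∈ spanCycles W Z j
    · -- `w` is in the kernel of the pairing
      have h1 := LinearMap.finrank_range_add_finrank_ker (pair W Z j l)
      have h2 : 1 ≤ Module.finrank W.K (LinearMap.ker (pair W Z j l)) := by
        rw [Nat.one_le_iff_ne_zero]
        intro h3
        rw [Submodule.finrank_eq_zero] at h3
        have h4 : (⟨w, hws⟩ : spanCycles W Z j) ∈ LinearMap.ker (pair W Z j l) := by
          rw [LinearMap.mem_ker]
          apply LinearMap.ext
          rintro ⟨c, hc⟩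
          rw [pair_apply, LinearMap.zero_apply]
          show W.tr Z (w * c) = 0
          have h5 := tr_adj Φ (Z := Z) (s := s) (μ := (card Φ Z s : W.K) ^ j)
            (μ' := (card Φ Z s : W.K) ^ l) (by rw [← pow_add, hjl]) (A y) c
          have h7 : (frob Φ Z s - ((card Φ Z s : W.K) ^ l) • (1 : Module.End W.K (W.H Z))) c = 0 := by
            rw [LinearMap.sub_apply, LinearMap.smul_apply, Module.End.one_apply, hs2 _ hc, sub_self]
          have h8 : A (A y) = w := by rw [hw, pow_two, Module.End.mul_apply]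
          rw [h7, ← hA, mul_zero, map_zero, h8] at h5
          rcases mul_eq_zero.1 h5.symm with h6 | h6
          · exact absurd (neg_eq_zero.1 h6) (pow_ne_zero _ (card_ne Φ s))
          · exact h6
        rw [h3, Submodule.mem_bot] at h4
        exact hy2 (congrArg Subtype.val h4)
      have h3 := Submodule.finrank_mono hle
      rw [kRank]
      omega
    · have h1 : Module.finrank W.K (spanCycles W Z j) <
          Module.finrank W.K ((LinearMap.ker N).map V.subtype) :=
        Submodule.finrank_lt_finrank_of_lt (lt_of_le_of_ne hle (fun h => hws (h ▸ hwker)))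
      have h2 := kRank_le (W := W) (Z := Z) j l
      omega
  omega

end Defect

section Main

variable {σ : W.K →+* ℂ}

/-- The hypothesis on the pole gives the hypothesis on the blocks. -/
theorem blocksLE_of_pole (hp : 1 < p) (hRH : RiemannHyp Φ σ Z) {j : ℕ} (hj : j ≤ Z.dim)
    (h : PoleExcessLE Φ σ Z j 2) : BlocksLE Φ Z j 2 := by
  obtain ⟨l, hl⟩ := Nat.exists_eq_add_of_le hj
  obtain ⟨t₁, ht₁, h1⟩ := exists_span_eig Φ Z j
  obtain ⟨t₂, ht₂, h2⟩ := exists_span_eig Φ Z l
  intro t ht
  obtain ⟨s, hs, ⟨r', hr'⟩, r, hr, hr2⟩ := h (t * (t₁ * t₂)) (Nat.mul_pos ht (Nat.mul_pos ht₁ ht₂))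
  refine ⟨s, hs, ⟨t₁ * t₂ * r', by rw [hr']; ring⟩, fun x hx => ?_⟩
  by_contra hne
  have hs1 : ∀ c ∈ spanCycles W Z j, frob Φ Z s c = ((card Φ Z s : W.K) ^ j) • c := by
    intro c hc
    have := span_eig_mul Φ (h1 c hc) (t * t₂ * r')
    rwa [show t₁ * (t * t₂ * r') = s by rw [hr']; ring] at this
  have hs2 : ∀ c ∈ spanCycles W Z l, frob Φ Z s c = ((card Φ Z s : W.K) ^ l) • c := by
    intro c hc
    have := span_eig_mul Φ (h2 c hc) (t * t₁ * r')
    rwa [show t₂ * (t * t₁ * r') = s by rw [hr']; ring] at this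
  have h3 := kRank_add_three_le Φ hl.symm hs1 hs2 hx hne
  rw [order_zetaFn Φ hp σ hRH hs hj] at hr
  have h4 := WithTop.coe_injective hr
  rw [numRank_eq (W := W) hj, show Z.dim - j = l by omega] at hr2
  omega

/-- **Semisimplicity in low degrees.** -/
theorem semisimple_of_blocks (hD : X.IsCyc 1 D) (hHL : HardLefschetz W X D) {d : ℕ}
    (hd : d ≤ X.dim) (h : BlocksLE Φ (X.prod X) d 2) {i : ℕ} (hi : i ≤ d) :
    FrobSemisimple Φ X i := by
  obtain ⟨a, b, S, ha, hb, hF, hG, hχ, hχ'⟩ := exists_symX' Φ X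
  obtain ⟨r, hr, hcyc⟩ := Φ.cyc hD
  obtain ⟨s, hs, ⟨r', hr'⟩, hbl⟩ := h (a * r) (Nat.mul_pos ha hr)
  have hr'0 : r' ≠ 0 := by
    rintro rfl
    rw [mul_zero] at hr'
    omega
  have hs' : s = a * (r * r') := by rw [hr']; ring
  have hss : (onGr S (r * r') i).IsSemisimple := by
    apply semisimple_low S hD hHL (g := r * r') ?_ hd ?_ hi
    · rw [hF, hχ']
      have h1 := W534.frob_mul Φ hcyc (b * r')
      rw [show r * (b * r') = b * (r * r') by ring] at h1
      rw [h1, card, Nat.cast_pow, mul_one]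
    · intro c hc hN
      have e : ∀ y, defOp S (r * r') d y = ((W.map (W534.iter (Φ.Fr (X.prod X)) s)).toLinearMap -
          ((card Φ (X.prod X) s : W.K) ^ d) • (1 : Module.End W.K (W.H (X.prod X)))) y := by
        intro y
        rw [defOp_apply, hG, hχ, ← hs']
        rfl
      have e' : defOp S (r * r') d = (W.map (W534.iter (Φ.Fr (X.prod X)) s)).toLinearMap -
          ((card Φ (X.prod X) s : W.K) ^ d) • (1 : Module.End W.K (W.H (X.prod X))) :=
        LinearMap.ext e
      rw [e'] at hN ⊢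
      exact hbl c ((mem_genTate Φ).2 ⟨hN, hc⟩)
  have e2 : onGr S (r * r') i = frobOn Φ X (b * (r * r')) i := by
    apply LinearMap.ext
    intro x
    apply Subtype.ext
    exact hF (r * r') x
  rw [e2] at hss
  exact frobSemisimple_of_pow Φ (Nat.mul_pos hb (Nat.mul_pos hr (Nat.pos_of_ne_zero hr'0))) hss

/-- **Semisimplicity in high degrees.** -/
theorem semisimple_dual (hD : X.IsCyc 1 D) (hHL : HardLefschetz W X D) {i : ℕ}
    (hi : i ≤ X.dim) (h : FrobSemisimple Φ X i) : FrobSemisimple Φ X (2 * X.dim - i) := by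
  obtain ⟨r, hr, hcyc⟩ := Φ.cyc hD
  have h1 := FrobSemisimple.pow Φ h r
  set L := LinearMap.mulLeft W.K (W.cl X D) with hLdef
  set m := X.dim - i with hm
  have hL : ∀ (c : ℕ) (x : W.H X), W.map (W534.iter (Φ.Fr X) r) ((L ^ c) x) =
      ((card Φ X r : W.K)) ^ c • (L ^ c) (W.map (W534.iter (Φ.Fr X) r) x) := by
    intro c
    induction c with
    | zero => intro x; simp
    | succ c ih =>
      intro x
      rw [pow_succ L, Module.End.mul_apply, Module.End.mul_apply, ih]
      have e : W.map (W534.iter (Φ.Fr X) r) (L x) =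
          (card Φ X r : W.K) • L (W.map (W534.iter (Φ.Fr X) r) x) := by
        rw [hLdef, LinearMap.mulLeft_apply, LinearMap.mulLeft_apply, map_mul, hcyc, mul_one,
          smul_mul_assoc, card, Nat.cast_pow]
      rw [e, map_smul, smul_smul, pow_succ]
  have hLh : IsHom (W.gr X) 2 L := by
    have := (SymX.kop_opAlg W X).hom (kop_L (W := W) hD)
    simpa using this
  have hmem : ∀ x ∈ W.gr X i, (L ^ m) x ∈ W.gr X (2 * X.dim - i) := by
    intro x hx
    have := pow_L_mem hLh hx m
    rwa [show i + 2 * m = 2 * X.dim - i by omega] at this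
  let f : W.gr X i →ₗ[W.K] W.gr X (2 * X.dim - i) := (L ^ m).restrict hmem
  have hf : Function.Bijective f := by
    constructor
    · rw [← LinearMap.ker_eq_bot, LinearMap.ker_eq_bot']
      rintro ⟨x, hx⟩ h0
      apply Subtype.ext
      exact (hHL i hi).1 x hx (congrArg Subtype.val h0)
    · rintro ⟨y, hy⟩
      obtain ⟨x, hx, hxy⟩ := (hHL i hi).2 y hy
      exact ⟨⟨x, hx⟩, Subtype.ext hxy⟩
  have h2 : (((card Φ X r : W.K) ^ m) • frobOn Φ X r i).IsSemisimple := Module.End.IsSemisimple_smul _ h1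
  have h3 : (frobOn Φ X r (2 * X.dim - i)).IsSemisimple := by
    refine (LinearEquiv.isSemisimple_iff _ _ (LinearEquiv.ofBijective f hf) ?_).1 h2
    apply LinearMap.ext
    intro x
    apply Subtype.ext
    show (L ^ m) ((((card Φ X r : W.K) ^ m) • W.map (W534.iter (Φ.Fr X) r) (x : W.H X))) =
      W.map (W534.iter (Φ.Fr X) r) ((L ^ m) (x : W.H X))
    rw [hL, map_smul]
  exact frobSemisimple_of_pow Φ hr h3

end Main

end Pool.Agent.Q82.SF
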