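import Mathlib

/-!
# Semisimple operators and commutators
-/

set_option autoImplicit false
set_option linter.unusedSectionVars false

open Module Module.End Polynomial Algebra

namespace Pool.Agent.Q82.SF

section Reg

/-- Endomorphisms of semisimple modules have quasi-inverses. -/
lemma exists_quasi {R M : Type*} [Ring R] [AddCommGroup M] [Module R M] [IsSemisimpleModule R M]
    (f : M →ₗ[R] M) : ∃ g : M →ₗ[R] M, f ∘ₗ g ∘ₗ f = f := by
  obtain ⟨s, hs⟩ := IsSemisimpleModule.lifting_property f.rangeRestrict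
    f.surjective_rangeRestrict LinearMap.id
  obtain ⟨g, hg⟩ := IsSemisimpleModule.extension_property (LinearMap.range f).subtype
    (Submodule.subtype_injective _) s
  refine ⟨g, LinearMap.ext fun x => ?_⟩
  have h1 : g (f x) = s (f.rangeRestrict x) := by
    have := congrArg (fun h => h (f.rangeRestrict x)) hg
    simpa using this
  have h2 : f.rangeRestrict (s (f.rangeRestrict x)) = f.rangeRestrict x := by
    exact congrArg (fun h => h (f.rangeRestrict x)) hs
  have h3 := congrArg Subtype.val h2
  simp only [LinearMap.coe_comp, Function.comp_apply]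
  rw [h1]
  exact h3

variable {K : Type*} [Field K] {V : Type*} [AddCommGroup V] [Module K V]

/-- Operators commuting with a semisimple operator have quasi-inverses commuting with it. -/
lemma exists_quasi_comm {σ x : End K V} (hσ : σ.IsSemisimple) (hx : Commute σ x) :
    ∃ u : End K V, Commute σ u ∧ x * u * x = x := by
  have : IsSemisimpleModule K[X] (AEval' σ) := hσ
  let f : AEval' σ →ₗ[K[X]] AEval' σ := LinearMap.ofAEval σ ((AEval'.of σ).toLinearMap ∘ₗ x) (by
    intro m
    show AEval'.of σ (x (σ m)) = (X : K[X]) • AEval'.of σ (x m)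
    rw [AEval'.X_smul_of]
    congr 1
    exact (congrArg (fun h : End K V => h m) hx.eq).symm)
  obtain ⟨g, hg⟩ := exists_quasi f
  refine ⟨(AEval'.of σ).symm.toLinearMap ∘ₗ (g.restrictScalars K) ∘ₗ (AEval'.of σ).toLinearMap,
    ?_, ?_⟩
  · apply LinearMap.ext
    intro m
    show σ ((AEval'.of σ).symm (g (AEval'.of σ m))) = (AEval'.of σ).symm (g (AEval'.of σ (σ m)))
    rw [← AEval'.X_smul_of, map_smul, AEval'.of_symm_X_smul]
  · apply LinearMap.ext
    intro m
    have h1 := congrArg (fun h => h (AEval'.of σ m)) hg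
    have h2 : ∀ m, f (AEval'.of σ m) = AEval'.of σ (x m) := fun m => rfl
    have h3 : ∀ y, f y = AEval'.of σ (x ((AEval'.of σ).symm y)) := fun y => by
      obtain ⟨m, rfl⟩ := (AEval'.of σ).surjective y
      rw [h2, LinearEquiv.symm_apply_apply]
    simp only [LinearMap.coe_comp, Function.comp_apply] at h1
    rw [h3 (g _), h2 m] at h1
    exact (AEval'.of σ).injective h1

end Reg

section Ad

variable {K : Type*} [Field K] [PerfectField K] {V : Type*} [AddCommGroup V] [Module K V]
  [FiniteDimensional K V]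

/-- The commutator with `F`. -/
def adOp (F : End K V) : End K (End K V) := LinearMap.mulLeft K F - LinearMap.mulRight K F

omit [PerfectField K] [FiniteDimensional K V] in
lemma adOp_apply (F u : End K V) : adOp F u = F * u - u * F := rfl

omit [PerfectField K] [FiniteDimensional K V] in
lemma adOp_nilpotent {ν : End K V} (h : IsNilpotent ν) : IsNilpotent (adOp ν) := by
  have h1 : IsNilpotent (LinearMap.mulLeft K ν) := by
    obtain ⟨n, hn⟩ := h
    exact ⟨n, by rw [LinearMap.pow_mulLeft, hn, LinearMap.mulLeft_zero_eq_zero]⟩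
  have h2 : IsNilpotent (LinearMap.mulRight K ν) := by
    obtain ⟨n, hn⟩ := h
    exact ⟨n, by rw [LinearMap.pow_mulRight, hn, LinearMap.mulRight_zero_eq_zero]⟩
  exact (LinearMap.commute_mulLeft_right (R := K) ν ν).isNilpotent_sub h1 h2

/-- If the blocks of the commutator operator at the eigenvalue zero have size at most two, then the
operator is semisimple. -/
theorem semisimple_of_ad [NeZero (2 : K)] {F : End K V}
    (h : ∀ w : End K V, (∃ N, (adOp F ^ N) w = 0) → (adOp F ^ 2) w = 0) : F.IsSemisimple := by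
  obtain ⟨ν, hν, σ, hσ, hnil, hss, rfl⟩ := F.exists_isNilpotent_isSemisimple
  have hνσ : Commute ν σ := by
    have h1 := commute_of_mem_adjoin_singleton_of_commute hν (Commute.refl (ν + σ))
    have h2 := commute_of_mem_adjoin_singleton_of_commute hσ h1.symm
    exact h2
  by_cases hν0 : ν = 0
  · rw [hν0, zero_add]
    exact hss
  exfalso
  -- the commutator with operators commuting with `σ`
  have hC : ∀ u : End K V, Commute σ u → ∀ N : ℕ, Commute σ ((adOp (ν + σ) ^ N) u) ∧
      (adOp (ν + σ) ^ N) u = (adOp ν ^ N) u := by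
    intro u hu N
    induction N with
    | zero => exact ⟨by simpa using hu, by simp⟩
    | succ N ih =>
      obtain ⟨h1, h2⟩ := ih
      rw [pow_succ', pow_succ', Module.End.mul_apply, Module.End.mul_apply]
      have e : adOp (ν + σ) ((adOp (ν + σ) ^ N) u) = adOp ν ((adOp (ν + σ) ^ N) u) := by
        rw [adOp_apply, adOp_apply, add_mul, mul_add, h1.eq]
        abel
      rw [e, h2]
      refine ⟨?_, rfl⟩
      rw [h2] at h1
      rw [adOp_apply]
      exact (hνσ.symm.mul_right h1).sub_right (h1.mul_right hνσ.symm)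
  have hkey : ∀ u : End K V, Commute σ u → (adOp ν ^ 2) u = 0 := by
    intro u hu
    rw [← (hC u hu 2).2]
    apply h
    obtain ⟨N, hN⟩ := adOp_nilpotent hnil
    exact ⟨N, by rw [(hC u hu N).2, hN, LinearMap.zero_apply]⟩
  -- the largest nonzero power
  obtain ⟨m, hm1, hm2⟩ : ∃ m, ν ^ m ≠ 0 ∧ ν ^ (m + 1) = 0 := by
    have hex : ∃ n, ν ^ n = 0 := hnil
    classical
    have h0 : Nat.find hex ≠ 0 := by
      intro h0
      have := Nat.find_spec hex
      rw [h0, pow_zero] at this
      exact hν0 (by rw [← mul_one ν, this, mul_zero])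
    refine ⟨Nat.find hex - 1, Nat.find_min hex (by omega), ?_⟩
    rw [Nat.sub_add_cancel (Nat.pos_of_ne_zero h0)]
    exact Nat.find_spec hex
  have hm : 1 ≤ m := by
    by_contra hm
    have : m = 0 := by omega
    rw [this, zero_add, pow_one] at hm2
    exact hν0 hm2
  obtain ⟨u, hu, hq⟩ := exists_quasi_comm hss (hνσ.symm.pow_right m)
  have h2 := hkey u hu
  rw [pow_two, Module.End.mul_apply, adOp_apply, adOp_apply] at h2
  have h3 : ν ^ (m - 1) * (ν * (ν * u - u * ν) - (ν * u - u * ν) * ν) * ν ^ (m - 1) = 0 := by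
    rw [h2, mul_zero, zero_mul]
  have e1 : ν ^ (m - 1) * ν = ν ^ m := by rw [← pow_succ, Nat.sub_add_cancel hm]
  have e2 : ν * ν ^ (m - 1) = ν ^ m := by rw [← pow_succ', Nat.sub_add_cancel hm]
  have e3 : ν ^ m * ν = 0 := by rw [← pow_succ, hm2]
  have e4 : ν * ν ^ m = 0 := by rw [← pow_succ', hm2]
  have h4 : ν ^ (m - 1) * (ν * (ν * u - u * ν) - (ν * u - u * ν) * ν) * ν ^ (m - 1) =
      (ν ^ m * ν) * u * ν ^ (m - 1) - ν ^ m * u * ν ^ m - ν ^ m * u * ν ^ m +
        ν ^ (m - 1) * u * (ν * ν ^ m) := by
    calc _ = ((ν ^ (m - 1) * ν) * ν) * u * ν ^ (m - 1) - (ν ^ (m - 1) * ν) * u * (ν * ν ^ (m - 1)) -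
          (ν ^ (m - 1) * ν) * u * (ν * ν ^ (m - 1)) + ν ^ (m - 1) * u * (ν * (ν * ν ^ (m - 1))) := by
            noncomm_ring
      _ = _ := by rw [e1, e2]
  rw [h4, e3, e4, zero_mul, zero_mul, mul_zero, hq] at h3
  have h5 : (2 : K) • ν ^ m = 0 := by
    rw [two_smul]
    have : -(ν ^ m + ν ^ m) = 0 := by
      rw [← h3]
      abel
    exact neg_eq_zero.1 this
  rcases smul_eq_zero.1 h5 with h6 | h6
  · exact two_ne_zero h6
  · exact hm1 h6

/-- An injective operator with a semisimple power is semisimple. -/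
theorem semisimple_of_pow [CharZero K] {F : End K V} (hF : Function.Injective F) {m : ℕ}
    (hm : m ≠ 0) (h : (F ^ m).IsSemisimple) : F.IsSemisimple := by
  obtain ⟨ν, hν, σ, hσ, hnil, hss, hsum⟩ := F.exists_isNilpotent_isSemisimple
  have hνF : Commute F ν := commute_of_mem_adjoin_singleton_of_commute hν (Commute.refl F)
  have hσF : Commute F σ := commute_of_mem_adjoin_singleton_of_commute hσ (Commute.refl F)
  have hνσ : Commute ν σ := by
    have : σ = F - ν := by rw [hsum]; abel
    rw [this]
    exact hνF.symm.sub_right (Commute.refl ν)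
  -- the difference of the powers
  have h1 : IsNilpotent (F ^ m - σ ^ m) := by
    obtain ⟨q, hq⟩ : ∃ q, F ^ m - σ ^ m = ν * q ∧ Commute ν q := by
      refine ⟨∑ i ∈ Finset.range m, F ^ i * σ ^ (m - 1 - i), ?_, ?_⟩
      · rw [← hσF.mul_geom_sum₂ m]
        congr 1
        rw [hsum]
        abel
      · exact Commute.sum_right _ _ _ fun i _ => (hνF.symm.pow_right i).mul_right (hνσ.pow_right _)
    rw [hq.1]
    exact hq.2.isNilpotent_mul_right hnil
  have h2 : (F ^ m - σ ^ m).IsSemisimple :=
    IsSemisimple.sub_of_commute (hσF.pow_pow m m) h (hss.pow m)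
  have h3 : F ^ m = σ ^ m := sub_eq_zero.1 (eq_zero_of_isNilpotent_isSemisimple h1 h2)
  -- hence the nilpotent part is zero
  have h4 : ν * ∑ i ∈ Finset.range m, F ^ i * σ ^ (m - 1 - i) = 0 := by
    have := hσF.mul_geom_sum₂ m
    rw [h3, sub_self] at this
    rw [← this]
    congr 1
    rw [hsum]
    abel
  have hunit : IsUnit F := by
    rw [Module.End.isUnit_iff]
    exact ⟨hF, LinearMap.injective_iff_surjective.1 hF⟩
  have h5 : IsUnit (∑ i ∈ Finset.range m, F ^ i * σ ^ (m - 1 - i)) := by
    -- it is `m F^(m-1)` plus a nilpotent operator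
    have h6 : IsNilpotent ((∑ i ∈ Finset.range m, F ^ i * σ ^ (m - 1 - i)) -
        (m : K) • F ^ (m - 1)) := by
      obtain ⟨q, hq1, hq2⟩ : ∃ q, (∑ i ∈ Finset.range m, F ^ i * σ ^ (m - 1 - i)) -
          (m : K) • F ^ (m - 1) = ν * q ∧ Commute ν q := by
        have : ∀ j, ∃ q, σ ^ j - F ^ j = ν * q ∧ Commute ν q := by
          intro j
          refine ⟨-∑ i ∈ Finset.range j, F ^ i * σ ^ (j - 1 - i), ?_, ?_⟩
          · have := hσF.mul_geom_sum₂ j
            rw [mul_neg, show σ ^ j - F ^ j = -(F ^ j - σ ^ j) by abel, ← this]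
            congr 2
            rw [hsum]
            abel
          · exact (Commute.sum_right _ _ _ fun i _ =>
              (hνF.symm.pow_right i).mul_right (hνσ.pow_right _)).neg_right
        choose q hq1 hq2 using this
        refine ⟨∑ i ∈ Finset.range m, F ^ i * q (m - 1 - i), ?_, ?_⟩
        · rw [Finset.mul_sum]
          have e : (m : K) • F ^ (m - 1) = ∑ i ∈ Finset.range m, F ^ (m - 1) := by
            rw [Finset.sum_const, Finset.card_range, Nat.cast_smul_eq_nsmul]
          rw [e, ← Finset.sum_sub_distrib]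
          refine Finset.sum_congr rfl fun i hi => ?_
          have hi' := Finset.mem_range.1 hi
          rw [← mul_assoc, ← (hνF.pow_left i).eq, mul_assoc, ← hq1, mul_sub, ← pow_add,
            show i + (m - 1 - i) = m - 1 by omega]
        · exact Commute.sum_right _ _ _ fun i _ => (hνF.symm.pow_right i).mul_right (hq2 _)
      rw [hq1]
      exact hq2.isNilpotent_mul_right hnil
    have h7 : IsUnit ((m : K) • F ^ (m - 1)) := by
      rw [Algebra.smul_def]
      exact ((IsUnit.mk0 (m : K) (Nat.cast_ne_zero.2 hm)).map (algebraMap K (End K V))).mul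
        (hunit.pow (m - 1))
    have h8 : Commute ((∑ i ∈ Finset.range m, F ^ i * σ ^ (m - 1 - i)) - (m : K) • F ^ (m - 1))
        ((m : K) • F ^ (m - 1)) := by
      refine Commute.smul_right ?_ _
      refine Commute.pow_right ?_ _
      refine Commute.sub_left ?_ ?_
      · exact Commute.sum_left _ _ _ fun i _ => ((Commute.refl F).pow_left i).mul_left
          (hσF.symm.pow_left _)
      · exact Commute.smul_left ((Commute.refl F).pow_left _) _
    have h9 := IsNilpotent.isUnit_add_left_of_commute h6 h7 h8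
    rwa [add_sub_cancel] at h9
  have h8 : ν = 0 := by
    obtain ⟨w, hw⟩ := h5
    rw [← hw] at h4
    simpa using h4
  rw [hsum, h8, zero_add]
  exact hss

end Ad

end Pool.Agent.Q82.SF
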