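import Pool.Agent.Q82.SF.Prod
import Pool.Agent.Q82.SF.CycDefs

/-!
# The polynomial of the numbers of points
-/

set_option autoImplicit false
set_option linter.unusedSectionVars false

open CategoryTheory AlgebraicGeometry Filter Polynomial

universe u v

namespace Pool.Agent.Q82.SF

open Pool.Agent.H914 Pool.Agent.H447 Pool.Agent.W534 Pool.Agent.Q82.OC VarClass Obj WeilCohomology

section LA

variable {K : Type*} [Field K] [CharZero K] {V : Type*} [AddCommGroup V] [Module K V]
  [Module.Finite K V]

lemma trace_nilp {f : Module.End K V} (h : IsNilpotent f) : LinearMap.trace K V f = 0 :=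
  (LinearMap.isNilpotent_trace_of_isNilpotent h).eq_zero

/-- The inverse of an invertible operator is a polynomial in it. -/
lemma exists_inv_poly {F : Module.End K V} (hF : Function.Injective F) :
    ∃ G : K[X], aeval F (X * G) = 1 := by
  have hu : IsUnit F := by
    rw [Module.End.isUnit_iff]
    exact ⟨hF, LinearMap.injective_iff_surjective.1 hF⟩
  set m := minpoly K F with hm
  have h0 : m.coeff 0 ≠ 0 := by
    intro h0
    obtain ⟨q, hq⟩ := X_dvd_iff.2 h0
    have h1 := minpoly.aeval K F
    rw [← hm, hq, map_mul, aeval_X] at h1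
    obtain ⟨u, rfl⟩ := hu
    have h2 : aeval (u : Module.End K V) q = 0 := by
      have := congrArg (fun y => (↑u⁻¹ : Module.End K V) * y) h1
      simpa [← mul_assoc] using this
    have hq0 : q ≠ 0 := by
      rintro rfl
      rw [mul_zero] at hq
      exact minpoly.ne_zero (Algebra.IsIntegral.isIntegral (u : Module.End K V)) hq
    have h3 := minpoly.degree_le_of_ne_zero K (u : Module.End K V) hq0 h2
    rw [← hm, hq, degree_mul, degree_X, degree_eq_natDegree hq0] at h3
    have h4 : (1 + q.natDegree : WithBot ℕ) ≤ q.natDegree := h3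
    have h5 : 1 + q.natDegree ≤ q.natDegree := by exact_mod_cast h4
    omega
  obtain ⟨q, hq⟩ : ∃ q, m = C (m.coeff 0) + X * q := by
    have : X ∣ m - C (m.coeff 0) := by
      rw [X_dvd_iff]
      simp
    obtain ⟨q, hq⟩ := this
    exact ⟨q, by rw [← hq]; ring⟩
  refine ⟨C (-(m.coeff 0)⁻¹) * q, ?_⟩
  have h1 := minpoly.aeval K F
  rw [← hm, hq, map_add, aeval_C] at h1
  have h2 : aeval F (X * q) = - algebraMap K (Module.End K V) (m.coeff 0) := by
    rw [eq_neg_iff_add_eq_zero, add_comm]
    exact h1
  rw [show X * (C (-(m.coeff 0)⁻¹) * q) = C (-(m.coeff 0)⁻¹) * (X * q) by ring, map_mul, h2,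
    aeval_C, mul_neg, ← map_mul, neg_mul, inv_mul_cancel₀ h0, map_neg, map_one, neg_neg]

end LA

variable {k : Type u} [Field k] {𝒱 : VarClass k} {ops : CycleOps 𝒱}
  {W : WeilCohomology.{u, v} ops} {X : 𝒱.Obj} {D : X.Cycles} {p : ℕ} (Φ : FrobSystem W p)

lemma frob_hom (s : ℕ) : IsHom (W.gr X) 0 (frob Φ X s) := by
  intro i a ha
  by_cases hi : 0 ≤ i
  · lift i to ℕ using hi
    rw [grZ_natCast] at ha
    rw [add_zero, grZ_natCast]
    exact W.map_mem _ ha
  · rw [grZ_of_neg (by omega)] at ha
    rw [(Submodule.mem_bot _).1 ha, map_zero]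
    exact Submodule.zero_mem _

lemma aeval_hom {F : Module.End W.K (W.H X)} (hF : IsHom (W.gr X) 0 F) (P : W.K[X]) :
    IsHom (W.gr X) 0 (aeval F P) := by
  induction P using Polynomial.induction_on' with
  | add P Q hP hQ => rw [map_add]; exact hP.add hQ
  | monomial n c =>
    rw [aeval_monomial, ← Algebra.smul_def]
    have := (hF.pow n).smul c
    rwa [mul_zero] at this

/-- The characteristic polynomials of Frobenius on the different `H^i(X)` are coprime. -/
lemma charpoly_coprime {σ : W.K →+* ℂ} (hp : 1 < p) (hRH : RiemannHyp Φ σ X) {i j : ℕ}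
    (hij : i ≠ j) : IsCoprime (frobOn Φ X 1 i).charpoly (frobOn Φ X 1 j).charpoly := by
  rw [← isCoprime_map σ]
  refine (isCoprime_iff_aeval_ne_zero_of_isAlgClosed (k := ℂ) ℂ _ _).2 ?_
  intro a
  by_contra hcon
  push Not at hcon
  obtain ⟨h1, h2⟩ := hcon
  have hone : 1 < card Φ X 1 := Nat.one_lt_pow (Nat.mul_pos (Φ.e_pos X) one_pos).ne' hp
  have e1 := hRH 1 one_pos i a (by
    rw [frobPoly_eq]
    simpa [IsRoot.def] using h1)
  have e2 := hRH 1 one_pos j a (by
    rw [frobPoly_eq]
    simpa [IsRoot.def] using h2)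
  rw [e1] at e2
  have h3 : card Φ X 1 ^ i = card Φ X 1 ^ j := by exact_mod_cast e2
  exact hij (Nat.pow_right_injective hone h3)

/-- The Kunneth projectors are polynomials in the Frobenius endomorphism. -/
lemma exists_proj_poly {σ : W.K →+* ℂ} (hp : 1 < p) (hRH : RiemannHyp Φ σ X) (i : ℕ) :
    ∃ E : W.K[X], aeval (frob Φ X 1) E = proj (W.isInternal X) i := by
  classical
  set R := (Finset.range (2 * X.dim + 1)).erase i with hR
  have hcop : IsCoprime (frobOn Φ X 1 i).charpoly (∏ j ∈ R, (frobOn Φ X 1 j).charpoly) :=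
    IsCoprime.prod_right fun j hj => charpoly_coprime Φ hp hRH (Finset.ne_of_mem_erase hj).symm
  obtain ⟨a, b, hab⟩ := hcop
  refine ⟨b * ∏ j ∈ R, (frobOn Φ X 1 j).charpoly, ?_⟩
  apply gr_ext (W.isInternal X)
  intro j x hx
  have h0 := aeval_frobOn Φ 1 j (b * ∏ j ∈ R, (frobOn Φ X 1 j).charpoly) ⟨x, hx⟩
  rw [← h0]
  by_cases hji : j = i
  · subst hji
    rw [proj_same _ hx]
    have h1 : b * ∏ j ∈ R, (frobOn Φ X 1 j).charpoly = 1 - a * (frobOn Φ X 1 j).charpoly := by
      rw [← hab]; ring
    have h2 : aeval (frobOn Φ X 1 j) (b * ∏ j ∈ R, (frobOn Φ X 1 j).charpoly) = 1 := by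
      rw [h1, map_sub, map_mul, LinearMap.aeval_self_charpoly, mul_zero, map_one]
      apply LinearMap.ext
      intro y
      rw [LinearMap.sub_apply, LinearMap.zero_apply, sub_zero]
    rw [h2]
    rfl
  · rw [proj_ne _ hx hji]
    by_cases hj : j ≤ 2 * X.dim
    · have hjR : j ∈ R := Finset.mem_erase.2 ⟨hji, Finset.mem_range.2 (by omega)⟩
      obtain ⟨q, hq⟩ := Finset.dvd_prod_of_mem (fun j => (frobOn Φ X 1 j).charpoly) hjR
      rw [hq, map_mul, map_mul, LinearMap.aeval_self_charpoly, zero_mul, mul_zero]
      rfl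
    · have hbot := W.gr_eq_bot X j (by omega)
      have hx0 : x = 0 := (Submodule.mem_bot _).1 (hbot.le hx)
      subst hx0
      have : (⟨0, hx⟩ : W.gr X j) = 0 := rfl
      rw [this, map_zero]
      rfl

/-- The numbers of points as traces. -/
lemma points_eq (r : ℕ) : (points Φ X r : W.K) =
    LinearMap.trace W.K (W.H X) (par (W.isInternal X) * frob Φ X 1 ^ r) := by
  have hcyc : (X.prod X).IsCyc X.dim (frobGraph Φ X r) :=
    ops.push_mem _ X.V.fundCycle_mem (by rw [dim_prod, zero_add])
  have h1 := trace_par_corr (W := W) (X := X) (W.cl _ (frobGraph Φ X r))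
  rw [frobGraph, corr_graph] at h1
  have h2 : (W.map (W534.iter (Φ.Fr X) r)).toLinearMap = frob Φ X 1 ^ r := by
    rw [← frob_mul_eq, one_mul]
    rfl
  rw [h2] at h1
  rw [h1, ← W.cl_pull]
  exact (W.tr_cl (ops.pull_mem (diag X) hcyc)).symm

/-- The recurrence in terms of super traces. -/
lemma sum_points (P : ℚ[X]) (r : ℕ) :
    ((∑ j ∈ Finset.range (P.natDegree + 1), P.coeff j * points Φ X (j + r) : ℚ) : W.K) =
      LinearMap.trace W.K (W.H X) (par (W.isInternal X) *
        (aeval (frob Φ X 1) (P.map (algebraMap ℚ W.K)) * frob Φ X 1 ^ r)) := by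
  rw [aeval_eq_sum_range, natDegree_map, Finset.sum_mul, Finset.mul_sum, map_sum, Rat.cast_sum]
  refine Finset.sum_congr rfl fun j _ => ?_
  rw [Rat.cast_mul, points_eq, coeff_map, smul_mul_assoc, mul_smul_comm, map_smul, smul_eq_mul,
    ← pow_add]
  rfl

/-- **The recurrence holds if and only if the polynomial of Frobenius is nilpotent.** -/
theorem recurrence_iff {σ : W.K →+* ℂ} (hp : 1 < p) (hRH : RiemannHyp Φ σ X) (P : ℚ[X]) :
    (∀ r, 1 ≤ r → ∑ j ∈ Finset.range (P.natDegree + 1), P.coeff j * points Φ X (j + r) = 0) ↔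
      IsNilpotent (aeval (frob Φ X 1) (P.map (algebraMap ℚ W.K))) := by
  set F := frob Φ X 1 with hF
  set Q := P.map (algebraMap ℚ W.K) with hQ
  have hFh := frob_hom Φ (X := X) 1
  have hpar : ∀ R : W.K[X], Commute (par (W.isInternal X)) (aeval F R) := fun R => by
    have := (aeval_hom hFh R)
    rw [show (0 : ℤ) = 2 * 0 by ring] at this
    exact this.par_comm (W.isInternal X)
  constructor
  · intro h
    -- all super traces vanish
    have h1 : ∀ G : W.K[X], LinearMap.trace W.K (W.H X)
        (par (W.isInternal X) * (aeval F Q * aeval F (Polynomial.X * G))) = 0 := by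
      intro G
      induction G using Polynomial.induction_on' with
      | add G G' hG hG' =>
        rw [mul_add, map_add, mul_add, mul_add, map_add, hG, hG', add_zero]
      | monomial n c =>
        have h2 := sum_points Φ (X := X) P (n + 1)
        rw [h (n + 1) (by omega), Rat.cast_zero] at h2
        have e : aeval F (Polynomial.X * monomial n c) = c • F ^ (n + 1) := by
          rw [X_mul_monomial, aeval_monomial, Algebra.smul_def]
        rw [e, mul_smul_comm, mul_smul_comm, map_smul, ← h2, smul_zero]
    obtain ⟨G₀, hG₀⟩ := exists_inv_poly (F := F) (map_iter_injective Φ 1)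
    have h2 : ∀ G : W.K[X], LinearMap.trace W.K (W.H X)
        (par (W.isInternal X) * (aeval F Q * aeval F G)) = 0 := by
      intro G
      have := h1 (G₀ * G)
      rwa [← mul_assoc Polynomial.X, map_mul (aeval F), hG₀, one_mul] at this
    -- nilpotent on every piece
    have h3 : ∀ i, IsNilpotent (aeval F Q * proj (W.isInternal X) i) := by
      intro i
      obtain ⟨E, hE⟩ := exists_proj_poly Φ hp hRH i
      rw [← hF] at hE
      have hcomm : Commute (aeval F Q) (proj (W.isInternal X) i) := by
        rw [← hE]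
        exact (Commute.all Q E).map (aeval F)
      apply isNilpotent_of_trace_pow
      intro r
      rw [hcomm.mul_pow]
      have hpp : ∀ r : ℕ, proj (W.isInternal X) i ^ (r + 1) = proj (W.isInternal X) i := by
        intro r
        induction r with
        | zero => simp
        | succ r ih => rw [pow_succ, ih, proj_mul_proj]
      rw [hpp]
      have h4 := h2 (Q ^ r * E)
      rw [map_mul (aeval F), hE, map_pow, ← mul_assoc (aeval F Q), ← pow_succ'] at h4
      have e : par (W.isInternal X) * (aeval F Q ^ (r + 1) * proj (W.isInternal X) i) =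
          (-1 : W.K) ^ i • (aeval F Q ^ (r + 1) * proj (W.isInternal X) i) := by
        have hc2 : Commute (par (W.isInternal X)) (aeval F Q ^ (r + 1)) := (hpar Q).pow_right _
        rw [← mul_assoc, hc2.eq, mul_assoc, par_mul_proj, mul_smul_comm]
      rw [e, map_smul, smul_eq_mul] at h4
      exact (mul_eq_zero.1 h4).resolve_left (pow_ne_zero _ (by norm_num))
    -- nilpotent
    choose N hN using h3
    refine ⟨∑ i ∈ Finset.range (2 * X.dim + 1), N i, ?_⟩
    apply gr_ext (W.isInternal X)
    intro i a ha
    rw [LinearMap.zero_apply]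
    by_cases hi : i ≤ 2 * X.dim
    · have hle : N i ≤ ∑ i ∈ Finset.range (2 * X.dim + 1), N i :=
        Finset.single_le_sum (fun _ _ => Nat.zero_le _) (Finset.mem_range.2 (by omega))
      obtain ⟨r, hr⟩ := Nat.exists_eq_add_of_le hle
      obtain ⟨E, hE⟩ := exists_proj_poly Φ hp hRH i
      rw [← hF] at hE
      have hcomm : Commute (aeval F Q) (proj (W.isInternal X) i) := by
        rw [← hE]
        exact (Commute.all Q E).map (aeval F)
      have h4 : (aeval F Q ^ N i) a = 0 := by
        have h5 := congrArg (fun f => f a) (hN i)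
        rw [hcomm.mul_pow] at h5
        have h6 : ∀ r : ℕ, (proj (W.isInternal X) i ^ r) a = a := by
          intro r
          induction r with
          | zero => rfl
          | succ r ih => rw [pow_succ', Module.End.mul_apply, ih, proj_same _ ha]
        have h7 : (aeval F Q ^ N i * proj (W.isInternal X) i ^ N i) a = 0 := h5
        rwa [Module.End.mul_apply, h6] at h7
      rw [hr, add_comm, pow_add, Module.End.mul_apply, h4, map_zero]
    · have hbot := W.gr_eq_bot X i (by omega)
      rw [(Submodule.mem_bot _).1 (hbot.le ha), map_zero]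
  · intro h r _
    have h1 := sum_points Φ (X := X) P r
    have h2 : LinearMap.trace W.K (W.H X) (par (W.isInternal X) * (aeval F Q * F ^ r)) = 0 := by
      apply trace_nilp
      have hc1 : Commute (aeval F Q) (F ^ r) := by
        have := (Commute.all Q (Polynomial.X ^ r)).map (aeval F)
        rwa [map_pow, aeval_X] at this
      have hn : IsNilpotent (aeval F Q * F ^ r) := hc1.isNilpotent_mul_right h
      have hc2 : Commute (par (W.isInternal X)) (aeval F Q * F ^ r) := by
        have := hpar (Q * Polynomial.X ^ r)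
        rwa [map_mul, map_pow, aeval_X] at this
      exact hc2.isNilpotent_mul_left hn
    rw [h2] at h1
    exact_mod_cast h1

end Pool.Agent.Q82.SF
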