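import Pool.Agent.Q82.SF.Frob
import Pool.Agent.H914R2.ExtOp

/-!
# Semisimplicity on the square
-/

set_option autoImplicit false
set_option linter.unusedSectionVars false

open CategoryTheory AlgebraicGeometry Filter Polynomial

universe u v

namespace Pool.Agent.Q82.SF

open Pool.Agent.H914 Pool.Agent.H447 Pool.Agent.W534 Pool.Agent.Q82.OC VarClass Obj WeilCohomology

variable {k : Type u} [Field k] {𝒱 : VarClass k} {ops : CycleOps 𝒱}
  {W : WeilCohomology.{u, v} ops} {X Y Z : 𝒱.Obj} {D : X.Cycles} {p : ℕ} (Φ : FrobSystem W p)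

/-- The homomorphism `φ ↦ φ ⊗ 1`. -/
noncomputable def extL (W : WeilCohomology.{u, v} ops) (Y Z : 𝒱.Obj) :
    Module.End W.K (W.H Y) →ₐ[W.K] Module.End W.K (W.H (Y.prod Z)) :=
  AlgHom.ofLinearMap
    { toFun := fun φ => extOp W φ 1
      map_add' := fun φ φ' => extOp_add_left φ φ' 1
      map_smul' := fun c φ => extOp_smul_left c φ 1 }
    extOp_one (fun φ φ' => by
      show extOp W (φ * φ') 1 = extOp W φ 1 * extOp W φ' 1
      rw [extOp_mul, mul_one])

/-- The homomorphism `ψ ↦ 1 ⊗ ψ`. -/
noncomputable def extR (W : WeilCohomology.{u, v} ops) (Y Z : 𝒱.Obj) :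
    Module.End W.K (W.H Z) →ₐ[W.K] Module.End W.K (W.H (Y.prod Z)) :=
  AlgHom.ofLinearMap
    { toFun := fun φ => extOp W 1 φ
      map_add' := fun φ φ' => extOp_add_right 1 φ φ'
      map_smul' := fun c φ => extOp_smul_right c 1 φ }
    extOp_one (fun φ φ' => by
      show extOp W 1 (φ * φ') = extOp W 1 φ * extOp W 1 φ'
      rw [extOp_mul, mul_one])

lemma semisimple_map {K : Type*} [Field K] {V V' : Type*} [AddCommGroup V] [Module K V]
    [AddCommGroup V'] [Module K V'] [FiniteDimensional K V] [FiniteDimensional K V']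
    (f : Module.End K V →ₐ[K] Module.End K V') {F : Module.End K V} (h : F.IsSemisimple) :
    (f F).IsSemisimple :=
  Module.End.isSemisimple_of_squarefree_aeval_eq_zero h.minpoly_squarefree (by
    rw [Polynomial.aeval_algHom_apply, minpoly.aeval, map_zero])

/-- External products of semisimple operators are semisimple. -/
lemma extOp_semisimple {φ : Module.End W.K (W.H Y)} {ψ : Module.End W.K (W.H Z)}
    (hφ : φ.IsSemisimple) (hψ : ψ.IsSemisimple) : (extOp W φ ψ).IsSemisimple := by
  have h1 := semisimple_map (extL W Y Z) hφ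
  have h2 := semisimple_map (extR W Y Z) hψ
  have e : extOp W φ ψ = extL W Y Z φ * extR W Y Z ψ := by
    show _ = extOp W φ 1 * extOp W 1 ψ
    rw [extOp_mul, mul_one, one_mul]
  have hc : Commute (extL W Y Z φ) (extR W Y Z ψ) := by
    show extOp W φ 1 * extOp W 1 ψ = extOp W 1 ψ * extOp W φ 1
    rw [extOp_mul, extOp_mul, mul_one, one_mul, mul_one, one_mul]
  rw [e]
  exact Module.End.IsSemisimple.mul_of_commute hc h1 h2

lemma aeval_frobOn (s i : ℕ) (P : W.K[X]) (x : W.gr X i) :
    ((aeval (frobOn Φ X s i) P x : W.gr X i) : W.H X) = aeval (frob Φ X s) P (x : W.H X) := by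
  induction P using Polynomial.induction_on' with
  | add P Q hP hQ => rw [map_add, map_add, LinearMap.add_apply, LinearMap.add_apply,
      Submodule.coe_add, hP, hQ]
  | monomial n c =>
    have h1 : ∀ n : ℕ, (((frobOn Φ X s i ^ n) x : W.gr X i) : W.H X) = (frob Φ X s ^ n) (x : W.H X) := by
      intro n
      rw [← frobOn_pow, ← frob_mul_eq]
      rfl
    rw [aeval_monomial, aeval_monomial, Module.End.mul_apply, Module.End.mul_apply,
      Module.algebraMap_end_apply, Module.algebraMap_end_apply, Submodule.coe_smul, h1]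

/-- The Frobenius endomorphism is semisimple on the whole cohomology. -/
lemma frob_semisimple {s : ℕ} (h : ∀ i, (frobOn Φ X s i).IsSemisimple) :
    (frob Φ X s).IsSemisimple := by
  obtain ⟨ν, hν, σ, hσ, hnil, hss, hsum⟩ := (frob Φ X s).exists_isNilpotent_isSemisimple
  rw [Algebra.adjoin_singleton_eq_range_aeval] at hν
  obtain ⟨P, hP⟩ := hν
  have hν0 : ν = 0 := by
    apply gr_ext (W.isInternal X)
    intro i a ha
    have h1 : (aeval (frobOn Φ X s i) P).IsSemisimple := (h i).aeval P
    have h2 : IsNilpotent (aeval (frobOn Φ X s i) P) := by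
      obtain ⟨n, hn⟩ := hnil
      refine ⟨n, ?_⟩
      rw [← map_pow]
      apply LinearMap.ext
      intro x
      apply Subtype.ext
      rw [aeval_frobOn, map_pow]
      have hP' : aeval (frob Φ X s) P = ν := hP
      rw [hP', hn]
      rfl
    have h3 := Module.End.eq_zero_of_isNilpotent_isSemisimple h2 h1
    have h4 := aeval_frobOn Φ s i P ⟨a, ha⟩
    have hP' : aeval (frob Φ X s) P = ν := hP
    rw [h3, hP'] at h4
    rw [LinearMap.zero_apply]
    exact h4.symm
  rw [hsum, hν0, zero_add]
  exact hss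

/-- **Semisimplicity on the square.** -/
theorem blocks_square (h : ∀ i ≤ 2 * X.dim, FrobSemisimple Φ X i) (j : ℕ) :
    BlocksLE Φ (X.prod X) j 1 := by
  obtain ⟨a, b, S, ha, hb, hF, hG, hχ, hχ'⟩ := exists_symX' Φ X
  intro t ht
  refine ⟨a * t, Nat.mul_pos ha ht, ⟨a, by ring⟩, fun x hx => ?_⟩
  have h1 : (frob Φ X (b * t)).IsSemisimple := by
    apply frob_semisimple
    intro i
    by_cases hi : i ≤ 2 * X.dim
    · exact FrobSemisimple.pow Φ (h i hi) _
    · have hbot := W.gr_eq_bot X i (by omega)
      have : frobOn Φ X (b * t) i = 0 := by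
        apply LinearMap.ext
        intro y
        have hy' : y = 0 := Subtype.ext ((Submodule.mem_bot _).1 (hbot.le y.2))
        rw [hy', map_zero, LinearMap.zero_apply]
      rw [this]
      exact Module.End.isSemisimple_zero
  have h2 : (frob Φ (X.prod X) (a * t)).IsSemisimple := by
    have e : frob Φ (X.prod X) (a * t) = extOp W (frob Φ X (b * t)) (frob Φ X (b * t)) := by
      apply ext_kunneth_lin
      intro y z
      rw [extOp_tmul, frob_apply, frob_apply, frob_apply, map_mul, ← hG, ← hG, S.fst, S.snd, hF, hF]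
    rw [e]
    exact extOp_semisimple h1 h1
  have h3 := h2.isFinitelySemisimple.maxGenEigenspace_eq_eigenspace
    ((card Φ (X.prod X) (a * t) : W.K) ^ j)
  have h4 : x ∈ (frob Φ (X.prod X) (a * t)).maxGenEigenspace
    ((card Φ (X.prod X) (a * t) : W.K) ^ j) := hx.1
  rw [h3, Module.End.mem_eigenspace_iff] at h4
  rw [pow_one, LinearMap.sub_apply, LinearMap.smul_apply, Module.End.one_apply, sub_eq_zero]
  exact h4

/-- **Frobenius on the middle cohomology of the square.** -/
theorem square_tfae (hD : X.IsCyc 1 D) (hHL : HardLefschetz W X D) : List.TFAE [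
    BlocksLE Φ (X.prod X) X.dim 2,
    BlocksLE Φ (X.prod X) X.dim 1,
    ∀ i ≤ 2 * X.dim, FrobSemisimple Φ X i,
    ∀ j, BlocksLE Φ (X.prod X) j 1] := by
  tfae_have 1 → 3 := by
    intro h i hi
    rcases le_or_gt i X.dim with h1 | h1
    · exact semisimple_of_blocks Φ hD hHL le_rfl h h1
    · have := semisimple_dual Φ hD hHL (i := 2 * X.dim - i) (by omega)
        (semisimple_of_blocks Φ hD hHL le_rfl h (by omega))
      rwa [show 2 * X.dim - (2 * X.dim - i) = i by omega] at this
  tfae_have 3 → 4 := blocks_square Φ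
  tfae_have 4 → 2 := fun h => h _
  tfae_have 2 → 1 := by
    intro h t ht
    obtain ⟨s, hs, hts, h1⟩ := h t ht
    refine ⟨s, hs, hts, fun x hx => ?_⟩
    have := h1 x hx
    rw [pow_one] at this
    rw [pow_two, Module.End.mul_apply, this, map_zero]
  tfae_finish

/-- Semisimplicity in the low and in the high degrees. -/
theorem semisimple_range (hD : X.IsCyc 1 D) (hHL : HardLefschetz W X D) {d : ℕ}
    (hd : d ≤ X.dim) (h : BlocksLE Φ (X.prod X) d 2) {i : ℕ} (hi : i ≤ 2 * X.dim)
    (hid : i ≤ d ∨ 2 * X.dim - d ≤ i) : FrobSemisimple Φ X i := by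
  rcases hid with h1 | h1
  · exact semisimple_of_blocks Φ hD hHL hd h h1
  · have := semisimple_dual Φ hD hHL (i := 2 * X.dim - i) (by omega)
      (semisimple_of_blocks Φ hD hHL hd h (by omega))
    rwa [show 2 * X.dim - (2 * X.dim - i) = i by omega] at this

end Pool.Agent.Q82.SF
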