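import Pool.Agent.Q82.OC.Sym
import Pool.Agent.Q82.SF.LA

/-!
# Frobenius on the square and on the cohomology of a variety
-/

set_option autoImplicit false
set_option linter.unusedSectionVars false

open CategoryTheory AlgebraicGeometry Filter

universe u v

namespace Pool.Agent.Q82.SF

open Pool.Agent.H914 Pool.Agent.H447 Pool.Agent.W534 Pool.Agent.Q82.OC VarClass Obj WeilCohomology

section LA

variable {K : Type*} [Field K] {V : Type*} [AddCommGroup V] [Module K V]

/-- The operator `w ↦ F w F⁻¹ - w`. -/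
def AdOp (F F' : Module.End K V) (w : Module.End K V) : Module.End K V := F * w * F' - w

lemma AdOp_iterate {F F' : Module.End K V} (h : F * F' = 1) (h' : F' * F = 1) (N : ℕ)
    (w : Module.End K V) : (AdOp F F')^[N] w = (adOp F ^ N) w * F' ^ N := by
  induction N with
  | zero => simp
  | succ N ih =>
    rw [Function.iterate_succ_apply', ih, pow_succ' (adOp F), Module.End.mul_apply, AdOp,
      adOp_apply, sub_mul, pow_succ F']
    have e : F' ^ N * F' = F' * F' ^ N := by rw [← pow_succ, pow_succ']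
    rw [mul_assoc ((adOp F ^ N) w) F, e, ← mul_assoc F F', h, one_mul, ← e]
    simp only [mul_assoc]

lemma semisimple_of_AdOp [CharZero K] [FiniteDimensional K V] {F F' : Module.End K V}
    (h : F * F' = 1) (h' : F' * F = 1)
    (H : ∀ w, (∃ N, (AdOp F F')^[N] w = 0) → (AdOp F F')^[2] w = 0) :
    Module.End.IsSemisimple F := by
  have hp : ∀ N : ℕ, F' ^ N * F ^ N = 1 := by
    intro N
    have hc : Commute F' F := by rw [commute_iff_eq, h, h']
    rw [← hc.mul_pow, h', one_pow]
  apply semisimple_of_ad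
  rintro w ⟨N, hN⟩
  have h2 := H w ⟨N, by rw [AdOp_iterate h h', hN, zero_mul]⟩
  rw [AdOp_iterate h h'] at h2
  rw [← mul_one ((adOp F ^ 2) w), ← hp 2, ← mul_assoc, h2, zero_mul]

end LA

variable {k : Type u} [Field k] {𝒱 : VarClass k} {ops : CycleOps 𝒱}
  {W : WeilCohomology.{u, v} ops} {X : 𝒱.Obj} {ι : Type*} (S : SymX W X ι) {D : X.Cycles}

/-- The projection to `H^i(X)`. -/
noncomputable def toGr (W : WeilCohomology.{u, v} ops) (X : 𝒱.Obj) (i : ℕ) :
    W.H X →ₗ[W.K] W.gr X i :=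
  (proj (W.isInternal X) i).codRestrict (W.gr X i) (proj_mem _ i)

lemma coe_toGr (i : ℕ) (x : W.H X) : ((toGr W X i x : W.gr X i) : W.H X) =
    proj (W.isInternal X) i x := rfl

lemma toGr_coe {i : ℕ} (x : W.gr X i) : toGr W X i (x : W.H X) = x :=
  Subtype.ext (proj_same _ x.2)

/-- The action of `F g` on `H^i(X)`. -/
noncomputable def onGr (S : SymX W X ι) (g : ι) (i : ℕ) : Module.End W.K (W.gr X i) :=
  (S.F g).toLinearMap.restrict (p := W.gr X i) (q := W.gr X i) (S.degF g i)

lemma coe_onGr (g : ι) (i : ℕ) (x : W.gr X i) : ((onGr S g i x : W.gr X i) : W.H X) =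
    S.F g (x : W.H X) := rfl

lemma F_hom (g : ι) : IsHom (W.gr X) 0 (S.F g).toLinearMap := by
  intro i a ha
  by_cases hi : 0 ≤ i
  · lift i to ℕ using hi
    rw [grZ_natCast] at ha
    rw [add_zero, grZ_natCast]
    exact S.degF g i a ha
  · rw [grZ_of_neg (by omega)] at ha
    rw [(Submodule.mem_bot _).1 ha, map_zero]
    exact Submodule.zero_mem _

lemma toGr_F (g : ι) (i : ℕ) (x : W.H X) : toGr W X i (S.F g x) = onGr S g i (toGr W X i x) := by
  apply Subtype.ext
  rw [coe_toGr, coe_onGr, coe_toGr]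
  have := (F_hom S g).proj_comm (W.isInternal X) i
  exact congrArg (fun h => h x) this

/-- The operator `L^(d-i) w θ`. -/
noncomputable def blk (W : WeilCohomology.{u, v} ops) (X : 𝒱.Obj) (L θ : Module.End W.K (W.H X))
    (m i : ℕ) (w : Module.End W.K (W.gr X i)) : Module.End W.K (W.H X) :=
  (L ^ m) ∘ₗ (W.gr X i).subtype ∘ₗ w ∘ₗ toGr W X i ∘ₗ θ

lemma blk_apply (L θ : Module.End W.K (W.H X)) (m i : ℕ) (w : Module.End W.K (W.gr X i))
    (x : W.H X) : blk W X L θ m i w x = (L ^ m) ((w (toGr W X i (θ x)) : W.gr X i) : W.H X) := rfl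

lemma blk_smul (L θ : Module.End W.K (W.H X)) (m i : ℕ) (a : W.K) (w : Module.End W.K (W.gr X i)) :
    blk W X L θ m i (a • w) = a • blk W X L θ m i w := by
  apply LinearMap.ext
  intro x
  rw [blk_apply, LinearMap.smul_apply, Submodule.coe_smul, map_smul, LinearMap.smul_apply,
    blk_apply]

lemma blk_sub (L θ : Module.End W.K (W.H X)) (m i : ℕ) (w w' : Module.End W.K (W.gr X i)) :
    blk W X L θ m i (w - w') = blk W X L θ m i w - blk W X L θ m i w' := by
  apply LinearMap.ext
  intro x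
  rw [blk_apply, LinearMap.sub_apply, Submodule.coe_sub, map_sub, LinearMap.sub_apply,
    blk_apply, blk_apply]

lemma mid_isHom (i : ℕ) (w : Module.End W.K (W.gr X i)) :
    IsHom (W.gr X) 0 ((W.gr X i).subtype ∘ₗ w ∘ₗ toGr W X i) := by
  intro j a ha
  by_cases hj : 0 ≤ j
  · lift j to ℕ using hj
    rw [grZ_natCast] at ha
    rw [add_zero, grZ_natCast]
    change ((w (toGr W X i a) : W.gr X i) : W.H X) ∈ W.gr X j
    by_cases hij : j = i
    · subst hij
      exact (w _).2
    · have : toGr W X i a = 0 := by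
        apply Subtype.ext
        rw [coe_toGr, proj_ne _ ha hij]
        rfl
      rw [this, map_zero]
      exact Submodule.zero_mem _
  · rw [grZ_of_neg (by omega)] at ha
    rw [(Submodule.mem_bot _).1 ha, map_zero]
    exact Submodule.zero_mem _

lemma blk_isHom {L θ : Module.End W.K (W.H X)} {m i r : ℕ} (hL : IsHom (W.gr X) 2 L)
    (hθ : IsHom (W.gr X) (2 * -(r : ℤ)) θ) (w : Module.End W.K (W.gr X i)) :
    IsHom (W.gr X) (2 * ((m : ℤ) - r)) (blk W X L θ m i w) := by
  have h1 := (hL.pow m).mul ((mid_isHom i w).mul hθ)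
  have e : (m : ℤ) * 2 + (0 + 2 * -(r : ℤ)) = 2 * ((m : ℤ) - r) := by ring
  rw [e] at h1
  exact h1

section Main

variable {g : ι} {L θ : Module.End W.K (W.H X)} {d i : ℕ}

lemma F_L_pow (hL : ∀ x, S.F g (L x) = S.χ g • L (S.F g x)) (m : ℕ) (x : W.H X) :
    S.F g ((L ^ m) x) = S.χ g ^ m • (L ^ m) (S.F g x) := by
  induction m generalizing x with
  | zero => simp
  | succ m ih =>
    rw [pow_succ L, Module.End.mul_apply, Module.End.mul_apply, ih, hL, map_smul, smul_smul,
      pow_succ]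

/-- The operator and the automorphism. -/
lemma blk_F (hL : ∀ x, S.F g (L x) = S.χ g • L (S.F g x))
    (hθ : ∀ x, S.χ g ^ (X.dim - i) • S.F g (θ x) = θ (S.F g x)) (hi : i ≤ d) (hd : d ≤ X.dim)
    {F' : Module.End W.K (W.gr X i)} (hF' : F' * onGr S g i = 1)
    (w : Module.End W.K (W.gr X i)) (x : W.H X) :
    S.χ g ^ X.dim • S.F g (blk W X L θ (d - i) i w x) =
      S.χ g ^ d • blk W X L θ (d - i) i (onGr S g i * w * F') (S.F g x) := by
  rw [blk_apply, blk_apply, F_L_pow S hL, ← hθ, map_smul, toGr_F]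
  have e1 : ∀ y : W.gr X i, F' (onGr S g i y) = y := fun y => by
    rw [← Module.End.mul_apply, hF', Module.End.one_apply]
  rw [Module.End.mul_apply, Module.End.mul_apply, map_smul, e1, map_smul, map_smul,
    Submodule.coe_smul, map_smul, coe_onGr, smul_smul, smul_smul]
  congr 1
  rw [← pow_add, ← pow_add]
  congr 1
  omega

lemma blk_injective (hHL : ∀ a ∈ W.gr X i, (L ^ (d - i)) a = 0 → a = 0)
    (hθ : ∀ a : W.gr X i, ∃ b, θ b = a) {w : Module.End W.K (W.gr X i)}
    (h : blk W X L θ (d - i) i w = 0) : w = 0 := by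
  apply LinearMap.ext
  intro a
  obtain ⟨b, hb⟩ := hθ a
  have h1 := congrArg (fun f => f b) h
  rw [LinearMap.zero_apply] at h1
  change blk W X L θ (d - i) i w b = 0 at h1
  rw [blk_apply, hb, toGr_coe] at h1
  rw [LinearMap.zero_apply]
  exact Subtype.ext (hHL _ (w a).2 h1)

/-- The difference of `G g` and `χ g ^ d`. -/
noncomputable def defOp (S : SymX W X ι) (g : ι) (d : ℕ) : Module.End W.K (W.H (X.prod X)) :=
  (S.G g).toLinearMap - (S.χ g ^ d) • 1

lemma defOp_apply (c : W.H (X.prod X)) : defOp S g d c = S.G g c - S.χ g ^ d • c := rfl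

lemma corr_defOp (hL : ∀ x, S.F g (L x) = S.χ g • L (S.F g x))
    (hθ : ∀ x, S.χ g ^ (X.dim - i) • S.F g (θ x) = θ (S.F g x)) (hi : i ≤ d) (hd : d ≤ X.dim)
    {F' : Module.End W.K (W.gr X i)} (hF' : F' * onGr S g i = 1)
    (w : Module.End W.K (W.gr X i)) {c : W.H (X.prod X)} {κ : W.K}
    (hc : W.corr c = κ • blk W X L θ (d - i) i w) :
    W.corr (defOp S g d c) = (κ * S.χ g ^ d) • blk W X L θ (d - i) i (AdOp (onGr S g i) F' w) := by
  apply LinearMap.ext
  intro x'
  obtain ⟨x, rfl⟩ := S.surj g x'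
  rw [defOp_apply, corr_sub'', corr_smul, LinearMap.sub_apply, S.corr_act, hc,
    LinearMap.smul_apply, LinearMap.smul_apply, map_smul, smul_comm (S.χ g ^ X.dim) κ,
    blk_F S hL hθ hi hd hF', AdOp, blk_sub, LinearMap.smul_apply, LinearMap.smul_apply,
    LinearMap.sub_apply, smul_sub, smul_smul, smul_smul, mul_comm (S.χ g ^ d) κ]

lemma corr_defOp_iter (hL : ∀ x, S.F g (L x) = S.χ g • L (S.F g x))
    (hθ : ∀ x, S.χ g ^ (X.dim - i) • S.F g (θ x) = θ (S.F g x)) (hi : i ≤ d) (hd : d ≤ X.dim)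
    {F' : Module.End W.K (W.gr X i)} (hF' : F' * onGr S g i = 1)
    (w : Module.End W.K (W.gr X i)) {c : W.H (X.prod X)}
    (hc : W.corr c = blk W X L θ (d - i) i w) (N : ℕ) :
    W.corr ((defOp S g d ^ N) c) =
      ((S.χ g ^ d) ^ N) • blk W X L θ (d - i) i ((AdOp (onGr S g i) F')^[N] w) := by
  induction N with
  | zero => simpa using hc
  | succ N ih =>
    rw [pow_succ', Module.End.mul_apply, Function.iterate_succ_apply',
      corr_defOp S hL hθ hi hd hF' _ ih, ← pow_succ]

/-- **If the blocks of `G g` at the eigenvalue `χ g ^ d` on `H^(2d)(X × X)` have size at most two,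
then `F g` is semisimple on `H^i(X)` for `i ≤ d`.** -/
theorem semisimple_low (hD : X.IsCyc 1 D) (hHL : HardLefschetz W X D)
    (hFD : S.F g (W.cl X D) = S.χ g • W.cl X D) (hd : d ≤ X.dim)
    (h : ∀ c ∈ W.gr (X.prod X) (2 * d), (∃ N, (defOp S g d ^ N) c = 0) →
      (defOp S g d ^ 2) c = 0) (hi : i ≤ d) : (onGr S g i).IsSemisimple := by
  set L := LinearMap.mulLeft W.K (W.cl X D) with hLdef
  have hLh : IsHom (W.gr X) 2 L := by
    have := (SymX.kop_opAlg W X).hom (kop_L (W := W) hD)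
    simpa using this
  obtain ⟨θ, ht⟩ := exists_isInv (W.isInternal X) hLh hHL (c := X.dim - i) (Nat.sub_le _ _)
  have hL : ∀ x, S.F g (L x) = S.χ g • L (S.F g x) := by
    intro x
    rw [hLdef, LinearMap.mulLeft_apply, LinearMap.mulLeft_apply, map_mul, hFD, smul_mul_assoc]
  have hcomm : TOp (W.gr X) (pure g) (fun g => (S.F g).toLinearMap) S.χ (-((X.dim - i : ℕ) : ℤ)) θ := by
    apply tOp_inv S.ne (W.isInternal X) (fun g i a ha => S.degF g i a ha) ?_ hHL (Nat.sub_le _ _) ht
    refine ⟨by simpa using hLh, ?_⟩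
    rw [eventually_pure]
    intro x
    rw [zpow_one]
    exact hL x
  have hθ : ∀ x, S.χ g ^ (X.dim - i) • S.F g (θ x) = θ (S.F g x) := by
    intro x
    have h1 : S.F g (θ x) = S.χ g ^ (-((X.dim - i : ℕ) : ℤ)) • θ (S.F g x) :=
      (eventually_pure.1 hcomm.2) x
    rw [h1, smul_smul, ← zpow_natCast, ← zpow_add₀ (S.ne g), add_neg_cancel, zpow_zero, one_smul]
  -- the inverse on `H^i`
  have hinj : Function.Injective (S.F g) := by
    have h1 : Function.Surjective (S.F g).toLinearMap := S.surj g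
    exact LinearMap.injective_iff_surjective.2 h1
  have hinj' : Function.Injective (onGr S g i) := by
    intro x y hxy
    apply Subtype.ext
    apply hinj
    exact congrArg Subtype.val hxy
  have hunit : IsUnit (onGr S g i) := by
    rw [Module.End.isUnit_iff]
    exact ⟨hinj', LinearMap.injective_iff_surjective.1 hinj'⟩
  obtain ⟨u, hu⟩ := hunit
  have h1 : onGr S g i * (↑u⁻¹ : Module.End W.K (W.gr X i)) = 1 := by rw [← hu]; exact u.mul_inv
  have h2 : (↑u⁻¹ : Module.End W.K (W.gr X i)) * onGr S g i = 1 := by rw [← hu]; exact u.inv_mul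
  have hlow : ∀ a ∈ W.gr X i, (L ^ (d - i)) a = 0 → a = 0 := by
    intro a ha h0
    apply (hHL i (by omega)).1 a ha
    rw [show X.dim - i = (X.dim - d) + (d - i) by omega, pow_add, Module.End.mul_apply, h0,
      map_zero]
  have hsurj : ∀ a : W.gr X i, ∃ b, θ b = a := by
    intro a
    refine ⟨(L ^ (X.dim - i)) a, ?_⟩
    have := ht.1 (a : W.H X) (by
      rw [show X.dim - (X.dim - i) = i by omega]
      exact a.2)
    exact this
  apply semisimple_of_AdOp h1 h2
  rintro w ⟨N, hN⟩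
  obtain ⟨c, hc⟩ := exists_corr (blk W X L θ (d - i) i w)
  have hcg : c ∈ W.gr (X.prod X) (2 * d) := by
    apply mem_gr_of_isHom
    rw [hc]
    have h3 := blk_isHom (m := d - i) hLh (ht.isHom (W.isInternal X) hHL (Nat.sub_le _ _)) w
    rwa [show ((d - i : ℕ) : ℤ) - ((X.dim - i : ℕ) : ℤ) = (d : ℤ) - X.dim by omega] at h3
  have h3 := corr_defOp_iter S hL hθ hi hd h2 w hc
  have h4 : (defOp S g d ^ N) c = 0 := by
    apply corr_inj
    rw [h3, hN]
    have : blk W X L θ (d - i) i (0 : Module.End W.K (W.gr X i)) = 0 := by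
      rw [← sub_self (0 : Module.End W.K (W.gr X i)), blk_sub, sub_self]
    rw [this, smul_zero]
  have h5 := h c hcg ⟨N, h4⟩
  have h6 := h3 2
  rw [h5, corr_zero] at h6
  have h7 := (smul_eq_zero.1 h6.symm).resolve_left
    (pow_ne_zero _ (pow_ne_zero _ (S.ne g)))
  exact blk_injective hlow hsurj h7

end Main

end Pool.Agent.Q82.SF
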